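import Pool.Agent.Helper45.TW.Defs

/-!
# Project TW (MP_e66f84_ag): the pieces of block ORB

`Q` a place of `N = NX (2 ^ n)` over infinity, `ι ∈ Gal (N / L0)`, `ι r = - r`, `ι Q = Q`;
`L1 = L0 E (KQ Q) = N ^ ι`.  Branch points `b` of `(L1, h)` are the places below the places `Q'` of `N`
fixed by `ι`.  `n ≥ 1`: `Q'` is over infinity, `Q' = a Q`, `a r = r`, `a` commutes with `ι`, `a = ± 1` on
the classes (`PM`).
-/

set_option autoImplicit false

namespace Pool.Agent.TOW

open VC IntermediateField NumberField IsDedekindDomain Pool.Agent.SC Pool.Agent.L Pool.Agent.M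

noncomputable section

/-- `a` is trivial on `M` and acts by `± 1` on the classes of level `m` -/
structure PM (E K0 : Type) {U : Type} [Field E] [Field K0] [Field U] [Algebra E U] [Algebra K0 U]
    (r : U) (m : ℕ) (a : U ≃+* U) : Prop where
  au : AuE E K0 a
  fr : a r = r
  pm : ∀ w : U, RX E K0 r m w → a w = w ∨ a w = -w

/-! ## ORBb (no places; helper90) -/

/-- OB1 -/
def StmtOB1 : Prop :=
  ∀ (k K0 E U : Type) [Field k] [NumberField k] [Field K0] [Field E] [Field U] [Algebra k K0]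
    [Algebra k E] [Algebra E U] [Algebra K0 U] [Algebra k U] [IsScalarTower k E U]
    [IsScalarTower k K0 U] (x : K0) (f : Polynomial k) (r : U), Hyp E x f r → ∀ (n : ℕ)
    (a i : U ≃+* U), AuE E K0 a → a r = r → AuE E K0 i → i r = -r →
    ((∀ z ∈ NX E K0 r (2 ^ n), a (i z) = i (a z)) ↔ PM E K0 r (2 ^ n) a)

/-- OB3 -/
def StmtOB3 : Prop :=
  ∀ (k K0 E U : Type) [Field k] [NumberField k] [Field K0] [Field E] [Field U] [Algebra k K0]
    [Algebra k E] [Algebra E U] [Algebra K0 U] [Algebra k U] [IsScalarTower k E U]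
    [IsScalarTower k K0 U] (x : K0) (f : Polynomial k) (r : U), Hyp E x f r → ∀ (n : ℕ), 1 ≤ n →
    ∀ a : U ≃+* U, PM E K0 r (2 ^ n) a →
    (∀ σ : E ≃ₐ[k] E, ∃ s : U ≃+* U, Au E K0 s ∧
      (∀ e : E, s (algebraMap E U e) = algebraMap E U (σ e)) ∧
      ∀ z ∈ NX E K0 r (2 ^ n), a (s z) = s (a z)) →
    ∀ z ∈ NX E K0 r (2 ^ n), a z = z

/-- OB4 -/
def StmtOB4 : Prop :=
  ∀ (k K0 E U : Type) [Field k] [NumberField k] [Field K0] [Field E] [Field U] [Algebra k K0]
    [Algebra k E] [Algebra E U] [Algebra K0 U] [Algebra k U] [IsScalarTower k E U]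
    [IsScalarTower k K0 U] (x : K0) (f : Polynomial k) (r : U), Hyp E x f r → ∀ (n : ℕ), 1 ≤ n →
    ∃ A : Fin 5 → (U ≃+* U), (∀ j, PM E K0 r (2 ^ n) (A j)) ∧
      ∀ j j', j ≠ j' → ∃ z ∈ NX E K0 r (2 ^ n), A j z ≠ A j' z

/-! ## ORBa (general lemmas on places; helper34) -/

/-- OG1: an automorphism over `E` which fixes the place `Q` is trivial on the residues. -/
def StmtOG1 : Prop :=
  ∀ (E U : Type) [Field E] [IsAlgClosed E] [CharZero E] [Field U] [Algebra E U]
    (N : IntermediateField E U), IsFunctionField E N → ∀ (Q : Place E N) (T : U ≃+* U),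
    (∀ e : E, T (algebraMap E U e) = algebraMap E U e) → Moves T N Q Q → ∀ z : N,
    Q.ring.valuation z = 1 → T z ≠ -z

/-- OG2: ramification at a fixed place. -/
def StmtOG2 : Prop :=
  ∀ (E U : Type) [Field E] [IsAlgClosed E] [CharZero E] [Field U] [Algebra E U]
    (L N : IntermediateField E U), L ≤ N → IsFunctionField E L → IsFunctionField E N →
    ∀ (b : Place E L) (Q : Place E N), OverPl b Q → ∀ (T : U ≃+* U), (∀ z ∈ L, T z = z) →
    Moves T N Q Q → ∀ (r : U) (h : L), r ∈ N → r ≠ 0 → T r = -r → (h : U) = r ^ 2 →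
    ¬ (2 : ℤ) ∣ ord b.ring h

/-- OG3: uniqueness of the place over a ramified place. -/
def StmtOG3 : Prop :=
  ∀ (E U : Type) [Field E] [IsAlgClosed E] [CharZero E] [Field U] [Algebra E U]
    (L N : IntermediateField E U), L ≤ N → IsFunctionField E L → IsFunctionField E N →
    ∀ (T : U ≃+* U), (∀ z ∈ L, T z = z) → (∀ z ∈ N, T z ∈ N) → (∀ z ∈ N, T (T z) = z) →
    (∀ z ∈ N, T z = z → z ∈ L) → ∀ (r : U) (h : L), r ∈ N → r ≠ 0 → T r = -r → (h : U) = r ^ 2 →
    ∀ b : Place E L, ¬ (2 : ℤ) ∣ ord b.ring h →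
    (∃ Q : Place E N, OverPl b Q) ∧
    ∀ Q Q' : Place E N, OverPl b Q → OverPl b Q' → Q = Q' ∧ Moves T N Q Q

/-- OG4: the place of `L` below `Q`, the image of `Q` under `T`. -/
def StmtOG4 : Prop :=
  ∀ (E U : Type) [Field E] [IsAlgClosed E] [CharZero E] [Field U] [Algebra E U]
    (L N : IntermediateField E U), L ≤ N → IsFunctionField E L → IsFunctionField E N →
    (∀ Q : Place E N, ∃ b : Place E L, OverPl b Q) ∧
    ∀ (Q : Place E N) (T : U ≃+* U), (∀ e : E, ∃ e' : E, T (algebraMap E U e) = algebraMap E U e') →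
      (∀ z ∈ N, T z ∈ N) → (∀ z ∈ N, T.symm z ∈ N) → ∃ Q' : Place E N, Moves T N Q Q'

/-! ## ORBc (the point at infinity; helper32) -/

/-- OI1 (from OG1): `ι` is `-1` on the square roots of `x - β`. -/
def StmtOI1 : Prop :=
  ∀ (k K0 E U : Type) [Field k] [NumberField k] [Field K0] [Field E] [Field U] [Algebra k K0]
    [Algebra k E] [Algebra E U] [Algebra K0 U] [Algebra k U] [IsScalarTower k E U]
    [IsScalarTower k K0 U] (x : K0) (f : Polynomial k) (r : U), Hyp E x f r → ∀ (n : ℕ), 1 ≤ n →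
    ∀ Q : Place E (NX E K0 r (2 ^ n)), Infp x Q → ∀ i : U ≃+* U, AuE E K0 i → i r = -r →
    Moves i _ Q Q → ∀ (β : E) (w : U), Polynomial.aeval β f = 0 →
    w ^ 2 = algebraMap K0 U x - algebraMap E U β → i w = -w

/-- OI2 (from OI1, OG1, INF, PX1): the places fixed by `ι`. -/
def StmtOI2 : Prop :=
  ∀ (k K0 E U : Type) [Field k] [NumberField k] [Field K0] [Field E] [Field U] [Algebra k K0]
    [Algebra k E] [Algebra E U] [Algebra K0 U] [Algebra k U] [IsScalarTower k E U]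
    [IsScalarTower k K0 U] (x : K0) (f : Polynomial k) (r : U), Hyp E x f r → ∀ (n : ℕ), 1 ≤ n →
    ∀ Q : Place E (NX E K0 r (2 ^ n)), Infp x Q → ∀ i : U ≃+* U, AuE E K0 i → i r = -r →
    Moves i _ Q Q → ∀ Q' : Place E (NX E K0 r (2 ^ n)), Moves i _ Q' Q' →
    ∃ a : U ≃+* U, AuE E K0 a ∧ a r = r ∧ Moves a _ Q Q' ∧
      ∀ z ∈ NX E K0 r (2 ^ n), a (i z) = i (a z)

/-- OI3 (for `n = 0`): the branch points of `L0`. -/
def StmtOI3 : Prop :=
  ∀ (k K0 E U : Type) [Field k] [NumberField k] [Field K0] [Field E] [Field U] [Algebra k K0]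
    [Algebra k E] [Algebra E U] [Algebra K0 U] [Algebra k U] [IsScalarTower k E U]
    [IsScalarTower k K0 U] (x : K0) (f : Polynomial k) (r : U), Hyp E x f r →
    (∀ b : Place E (L0 E K0 (U := U)), BPl (Polynomial.aeval x f) b → inL0 x ∈ b.ring →
      ∃ β : E, Polynomial.aeval β f = 0 ∧ b.ring.valuation (inL0 x - algebraMap E _ β) < 1) ∧
    ∀ β : E, Polynomial.aeval β f = 0 → ∃ b : Place E (L0 E K0 (U := U)),
      BPl (Polynomial.aeval x f) b ∧ b.ring.valuation (inL0 x - algebraMap E _ β) < 1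

end

end Pool.Agent.TOW
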