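import Pool.Agent.Helper90.TW.OrbB3
import Pool.Agent.Helper34.TW.OrbA

/-!
# Project TW, block ORB: `Moves`, and the situation at `Q`
-/

set_option autoImplicit false
set_option linter.unusedSectionVars false
set_option linter.unusedVariables false

namespace Pool.Agent.TOW

open VC IntermediateField NumberField IsDedekindDomain Pool.Agent.SC Pool.Agent.L Pool.Agent.M

section mv

variable {E U : Type} [Field E] [Field U] [Algebra E U] {N : IntermediateField E U}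

theorem pl_ext {Q Q' : Place E N} (h : ∀ (z : U) (hz : z ∈ N),
    (⟨z, hz⟩ : N) ∈ Q.ring ↔ (⟨z, hz⟩ : N) ∈ Q'.ring) : Q = Q' := by
  apply Place.ext
  ext z
  exact h z z.2

theorem mv_comp {φ ψ : U ≃+* U} {Q Q' Q'' : Place E N} (hφ : ∀ z ∈ N, φ z ∈ N)
    (h : Moves φ N Q Q') (h' : Moves ψ N Q' Q'') : Moves (φ.trans ψ) N Q Q'' :=
  fun x hx hx' => (h x hx (hφ x hx)).trans (h' (φ x) (hφ x hx) hx')

theorem mv_symm {φ : U ≃+* U} {Q Q' : Place E N} (h : Moves φ N Q Q') :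
    Moves φ.symm N Q' Q := by
  intro x hx hx'
  have h1 := h (φ.symm x) hx' (by rw [RingEquiv.apply_symm_apply]; exact hx)
  rw [h1]
  have h2 : (⟨φ (φ.symm x), by rw [RingEquiv.apply_symm_apply]; exact hx⟩ : N) = ⟨x, hx⟩ :=
    Subtype.ext (φ.apply_symm_apply x)
  rw [h2]

theorem mv_congr {φ ψ : U ≃+* U} {Q Q' : Place E N} (hφ : ∀ z ∈ N, φ z = ψ z)
    (h : Moves φ N Q Q') : Moves ψ N Q Q' := by
  intro x hx hx'
  have h1 := h x hx (by rw [hφ x hx]; exact hx')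
  rw [h1]
  have h2 : (⟨φ x, by rw [hφ x hx]; exact hx'⟩ : N) = ⟨ψ x, hx'⟩ := Subtype.ext (hφ x hx)
  rw [h2]

theorem mv_id {φ : U ≃+* U} (hφ : ∀ z ∈ N, φ z = z) (Q : Place E N) : Moves φ N Q Q := by
  intro x hx hx'
  have h2 : (⟨φ x, hx'⟩ : N) = ⟨x, hx⟩ := Subtype.ext (hφ x hx)
  rw [h2]

theorem mv_unique {φ : U ≃+* U} {Q Q' Q'' : Place E N} (hφ : ∀ z ∈ N, φ.symm z ∈ N)
    (h : Moves φ N Q Q') (h' : Moves φ N Q Q'') : Q' = Q'' := by
  apply pl_ext
  intro z hz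
  have hz' : φ (φ.symm z) ∈ N := by rw [RingEquiv.apply_symm_apply]; exact hz
  have h1 := h (φ.symm z) (hφ z hz) hz'
  have h2 := h' (φ.symm z) (hφ z hz) hz'
  have h3 : (⟨φ (φ.symm z), hz'⟩ : N) = ⟨z, hz⟩ := Subtype.ext (φ.apply_symm_apply z)
  rw [h3] at h1 h2
  exact h1.symm.trans h2

theorem mv_eq {φ : U ≃+* U} {Q Q' : Place E N} (hφ : ∀ z ∈ N, φ z = z)
    (h : Moves φ N Q Q') : Q = Q' :=
  mv_unique (φ := φ) (fun z hz => by
    have h1 : φ.symm z = z := by rw [RingEquiv.symm_apply_eq]; exact (hφ z hz).symm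
    rw [h1]; exact hz) (mv_id hφ Q) h

theorem over_unique90 {L : IntermediateField E U} (hLN : L ≤ N) {b b' : Place E L} {Q : Place E N}
    (h : OverPl b Q) (h' : OverPl b' Q) : b = b' :=
  pl_ext fun z hz => (h z hz (hLN hz)).trans (h' z hz (hLN hz)).symm

/-- an automorphism fixes the place below a fixed place -/
theorem mv_below {L : IntermediateField E U} (hLN : L ≤ N) {φ : U ≃+* U} {b : Place E L}
    {Q : Place E N} (h : OverPl b Q) (hm : Moves φ N Q Q) : Moves φ L b b := fun x hx hx' =>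
  (h x hx (hLN hx)).trans ((hm x (hLN hx) (hLN hx')).trans (h (φ x) hx' (hLN hx')).symm)

/-- the image of a place over a fixed place -/
theorem mv_over {L : IntermediateField E U} (hLN : L ≤ N) {φ : U ≃+* U} {b : Place E L}
    {Q Q' : Place E N} (hφ : ∀ z ∈ L, φ.symm z ∈ L) (h : OverPl b Q) (hb : Moves φ L b b)
    (hm : Moves φ N Q Q') : OverPl b Q' := by
  intro x hx hx'
  have h1 := hb (φ.symm x) (hφ x hx) (by rw [RingEquiv.apply_symm_apply]; exact hx)
  have h2 := hm (φ.symm x) (hLN (hφ x hx)) (by rw [RingEquiv.apply_symm_apply]; exact hx')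
  have h3 := h (φ.symm x) (hφ x hx) (hLN (hφ x hx))
  have h4 : (⟨φ (φ.symm x), by rw [RingEquiv.apply_symm_apply]; exact hx⟩ : L) = ⟨x, hx⟩ :=
    Subtype.ext (φ.apply_symm_apply x)
  have h5 : (⟨φ (φ.symm x), by rw [RingEquiv.apply_symm_apply]; exact hx'⟩ : N) = ⟨x, hx'⟩ :=
    Subtype.ext (φ.apply_symm_apply x)
  rw [h4] at h1
  rw [h5] at h2
  exact h1.symm.trans (h3.trans h2)

/-- `a` commutes with `i`, `i` fixes `Q`, hence `a Q` -/
theorem mv_conj {a i : U ≃+* U} {Q Q' : Place E N} (ha : ∀ z ∈ N, a z ∈ N)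
    (ha' : ∀ z ∈ N, a.symm z ∈ N) (hi : ∀ z ∈ N, i z ∈ N) (hc : ∀ z ∈ N, a (i z) = i (a z))
    (h : Moves a N Q Q') (hQ : Moves i N Q Q) : Moves i N Q' Q' := by
  refine mv_congr (φ := (a.symm.trans i).trans a) (fun z hz => ?_)
    (mv_comp (fun z hz => hi _ (ha' z hz)) (mv_comp ha' (mv_symm h) hQ) h)
  change a (i (a.symm z)) = i z
  rw [hc _ (ha' z hz), RingEquiv.apply_symm_apply]

end mv

section au

variable {E K0 U : Type} [Field E] [Field K0] [Field U] [Algebra E U] [Algebra K0 U] {r : U}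

theorem AuE.symm {T : U ≃+* U} (h : AuE E K0 T) : AuE E K0 T.symm :=
  ⟨fun x => by rw [RingEquiv.symm_apply_eq, h.fixK], fun e => by
    rw [RingEquiv.symm_apply_eq, h.fixE]⟩

theorem AuE.trans {T S : U ≃+* U} (h : AuE E K0 T) (h' : AuE E K0 S) : AuE E K0 (T.trans S) :=
  ⟨fun x => by rw [RingEquiv.trans_apply, h.fixK, h'.fixK], fun e => by
    rw [RingEquiv.trans_apply, h.fixE, h'.fixE]⟩

/-- automorphisms over `L0` are trivial on `L0` -/
theorem AuE.l0 {T : U ≃+* U} (h : AuE E K0 T) : ∀ z ∈ L0 E K0 (U := U), T z = z := by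
  intro z hz
  induction hz using IntermediateField.adjoin_induction with
  | mem y hy => obtain ⟨x, rfl⟩ := hy; exact h.fixK x
  | algebraMap e => exact h.fixE e
  | add y y' _ _ h h' => rw [map_add, h, h']
  | inv y _ h => rw [map_inv₀, h]
  | mul y y' _ _ h h' => rw [map_mul, h, h']

theorem l0_le_nx {m : ℕ} : L0 E K0 (U := U) ≤ NX E K0 r m := by
  refine IntermediateField.adjoin_le_iff.2 ?_
  rintro _ ⟨x, rfl⟩
  exact nx_mm (mm_K0 x)

/-- `r ↦ ± r` -/
theorem AuE.r_or {T : U ≃+* U} (h : AuE E K0 T) {y : K0} (hr : r ^ 2 = algebraMap K0 U y) :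
    T r = r ∨ T r = -r := by
  have h1 : (T r) ^ 2 = r ^ 2 := by rw [← map_pow, hr, h.fixK]
  exact sq_eq_sq_iff_eq_or_eq_neg.1 h1

end au

section act

variable {k K0 E U : Type} [Field k] [Field K0] [Field E] [Field U] [Algebra k K0]
    [Algebra k E] [Algebra E U] [Algebra K0 U] {r : U} {c : k} {Φ : (E ≃ₐ[k] E) →* (U ≃+* U)}

theorem act_au90 (h : Act (K0 := K0) r c Φ) (g : E ≃ₐ[k] E) : Au E K0 (Φ g) :=
  ⟨h.fixK g, fun e => ⟨g e, h.const g e⟩⟩

theorem act_symm (g : E ≃ₐ[k] E) (z : U) : (Φ g).symm z = Φ g⁻¹ z := by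
  rw [map_inv]
  rfl

/-- `L0` is stable -/
theorem act_l0 (h : Act (K0 := K0) r c Φ) (g : E ≃ₐ[k] E) :
    ∀ z ∈ L0 E K0 (U := U), Φ g z ∈ L0 E K0 (U := U) := by
  intro z hz
  induction hz using IntermediateField.adjoin_induction with
  | mem y hy =>
    obtain ⟨x, rfl⟩ := hy
    rw [h.fixK]
    exact IntermediateField.subset_adjoin _ _ ⟨x, rfl⟩
  | algebraMap e => rw [h.const]; exact (L0 E K0 (U := U)).algebraMap_mem _
  | add y y' _ _ h h' => rw [map_add]; exact add_mem h h'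
  | inv y _ h => rw [map_inv₀]; exact inv_mem h
  | mul y y' _ _ h h' => rw [map_mul]; exact mul_mem h h'

/-- two actions with the same fixed field agree on `L0` -/
theorem act_agree {Φ' : (E ≃ₐ[k] E) →* (U ≃+* U)} (h : Act (K0 := K0) r c Φ)
    (h1 : ∀ g (e : E), Φ' g (algebraMap E U e) = algebraMap E U (g e))
    (h2 : ∀ g (x : K0), Φ' g (algebraMap K0 U x) = algebraMap K0 U x) (g : E ≃ₐ[k] E) :
    ∀ z ∈ L0 E K0 (U := U), Φ g z = Φ' g z := by
  intro z hz
  induction hz using IntermediateField.adjoin_induction with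
  | mem y hy =>
    obtain ⟨x, rfl⟩ := hy
    rw [h.fixK, h2]
  | algebraMap e => rw [h.const, h1]
  | add y y' _ _ h h' => rw [map_add, map_add, h, h']
  | inv y _ h => rw [map_inv₀, map_inv₀, h]
  | mul y y' _ _ h h' => rw [map_mul, map_mul, h, h']

end act

end Pool.Agent.TOW
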