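import Pool.Agent.Helper90.TW.OrbFin
import Pool.Agent.Helper32.TW.OrbC

/-!
# Project TW, block ORB
-/

set_option autoImplicit false

namespace Pool.Agent.TOW

/-- **Block ORB** -/
theorem oRB (hKX1 : StmtKX1) (hKX2 : StmtKX2) (hKD : StmtKD) (hPX : StmtPX1) (hKG : StmtKG)
    (hINF : StmtINF) : StmtORB :=
  oRB_of hPX hKG hINF (oB1 hKX2) (oB3 hKX1 hKX2) (oB4 hKX1 hKX2 hKD)
    (oI2 hKX2 hINF hPX oG1 (oI1 hPX oG1)) oI3

end Pool.Agent.TOW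

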