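import Pool.Agent.Helper45.TW.YDefs

/-!
# Project TW, part (A''): the number of geometric branch points
-/

set_option autoImplicit false

namespace Pool.Agent.TOWS

open VC Polynomial IntermediateField NumberField IsDedekindDomain Pool.Agent.SC Pool.Agent.L
  Pool.Agent.M Pool.Agent.Helper91.Sect
open Pool.Agent.TW (jL0 jL0_k val_div_eq)

noncomputable section

/-- **BLOCK C5.** -/
theorem c5 : StmtC5 := by
  intro k K0 E U _ _ _ _ _ _ _ _ _ _ _ _ h r geo S hS
  have hcl : IsAlgClosed E := geo.clE
  have halg : Algebra.IsAlgebraic k E := geo.algE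
  have hch : CharZero E := charZero_of_injective_algebraMap (algebraMap k E).injective
  have hff : IsFunctionField E (L0 E K0 (U := U)) := geo.ff
  have hh0 : h ≠ 0 := by
    rintro rfl
    have h1 := geo.rsq
    rw [map_zero] at h1
    have h2 := pow_eq_zero_iff two_ne_zero |>.1 h1
    exact geo.rnot (by rw [h2]; exact zero_mem _)
  have hjh0 : jL0 E K0 (U := U) h ≠ 0 := (_root_.map_ne_zero _).2 hh0
  have hBfin : {b : Place E (L0 E K0 (U := U)) | BPl h b}.Finite := by
    have h1 : (inL0 h : L0 E K0 (U := U)) ≠ 0 := hjh0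
    refine (FF.finite_support_ord hff h1).subset fun b hb h0 => hb ?_
    rw [h0]
    exact dvd_zero _
  have : Finite {b : Place E (L0 E K0 (U := U)) // BPl h b} := hBfin.to_subtype
  have : Normal K0 U := geo.normal
  have : Algebra.IsAlgebraic K0 U := Normal.toIsAlgebraic
  -- the embedding
  let j : U →ₐ[K0] AlgebraicClosure K0 := IsAlgClosed.lift
  have hjk : ∀ a : k, j (algebraMap E U (algebraMap k E a)) =
      algebraMap k (AlgebraicClosure K0) a := by
    intro a
    rw [← IsScalarTower.algebraMap_apply k E U, IsScalarTower.algebraMap_apply k K0 U, j.commutes,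
      ← IsScalarTower.algebraMap_apply k K0 (AlgebraicClosure K0)]
  let jE : E →ₐ[k] AlgebraicClosure K0 :=
    { (j : U →+* AlgebraicClosure K0).comp (algebraMap E U) with commutes' := hjk }
  have hjE : ∀ e : E, jE e = j (algebraMap E U e) := fun e => rfl
  have hEalg : ∀ e : E, IsAlgebraic k (j (algebraMap E U e)) := by
    intro e
    rw [← hjE]
    exact IsAlgebraic.algHom jE (halg.isAlgebraic e)
  have hEsurj : ∀ z : AlgebraicClosure K0, IsAlgebraic k z → ∃ e : E, j (algebraMap E U e) = z := by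
    intro z hz
    obtain ⟨p, hp0, hp⟩ := hz
    have h1 : (p.map (algebraMap k E)).Splits := IsAlgClosed.splits _
    have h2 : (p.map (algebraMap k E)) ≠ 0 :=
      (Polynomial.map_ne_zero_iff (algebraMap k E).injective).2 hp0
    have h3 : (p.map (algebraMap k E)).map (jE : E →+* AlgebraicClosure K0) =
        p.map (algebraMap k (AlgebraicClosure K0)) := by
      rw [Polynomial.map_map]
      congr 1
      exact jE.comp_algebraMap
    have h4 : z ∈ ((p.map (algebraMap k E)).map (jE : E →+* AlgebraicClosure K0)).roots := by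
      rw [h3, Polynomial.mem_roots ((Polynomial.map_ne_zero_iff (RingHom.injective _)).2 hp0),
        Polynomial.IsRoot.def, Polynomial.eval_map, ← Polynomial.aeval_def]
      exact hp
    rw [h1.roots_map] at h4
    obtain ⟨e, -, he⟩ := Multiset.mem_map.1 h4
    exact ⟨e, he⟩
  have hjL : ∀ z : L0 E K0 (U := U), j (z : U) ∈ Y0 k K0 := by
    rintro ⟨z, hz⟩
    induction hz using IntermediateField.adjoin_induction with
    | mem z hz =>
      obtain ⟨x, rfl⟩ := hz
      change j (algebraMap K0 U x) ∈ _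
      rw [j.commutes]
      exact Subfield.subset_closure (Or.inr ⟨x, rfl⟩)
    | algebraMap c =>
      exact Subfield.subset_closure (Or.inl (hEalg c))
    | add z z' _ _ h h' =>
      change j (z + z') ∈ _
      rw [map_add]
      exact add_mem h h'
    | inv z _ h =>
      change j (z⁻¹) ∈ _
      rw [map_inv₀]
      exact inv_mem h
    | mul z z' _ _ h h' =>
      change j (z * z') ∈ _
      rw [map_mul]
      exact mul_mem h h'
  let j0 : L0 E K0 (U := U) →+* Y0 k K0 :=
    ((j : U →+* AlgebraicClosure K0).comp (algebraMap (L0 E K0 (U := U)) U)).codRestrict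
      (Y0 k K0) hjL
  have hj0 : ∀ t : L0 E K0 (U := U), (j0 t : AlgebraicClosure K0) = j (t : U) := fun t => rfl
  have hsurj : ∀ z : Y0 k K0, ∃ t : L0 E K0 (U := U), j0 t = z := by
    have key : Y0 k K0 ≤ ((j : U →+* AlgebraicClosure K0).comp
        (algebraMap (L0 E K0 (U := U)) U)).fieldRange := by
      rw [Subfield.closure_le]
      rintro z (hz | ⟨x, rfl⟩)
      · obtain ⟨e, rfl⟩ := hEsurj z hz
        exact ⟨algebraMap E _ e, rfl⟩
      · exact ⟨jL0 E K0 x, j.commutes x⟩
    rintro ⟨z, hz⟩
    obtain ⟨t, ht⟩ := key hz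
    exact ⟨t, Subtype.ext ht⟩
  have hj0h : (j0 (jL0 E K0 (U := U) h) : AlgebraicClosure K0) =
      algebraMap K0 (AlgebraicClosure K0) h := j.commutes h
  have hhY : algebraMap K0 (AlgebraicClosure K0) h ∈ Y0 k K0 :=
    Subfield.subset_closure (Or.inr ⟨h, rfl⟩)
  have hj0h' : j0 (jL0 E K0 (U := U) h) = ⟨_, hhY⟩ := Subtype.ext hj0h
  -- the place
  have hplace : ∀ P ∈ S, ∃ b : Place E (L0 E K0 (U := U)), b.ring = P.comap j0 ∧ BPl h b := by
    intro P hP
    obtain ⟨hc, hodd⟩ := hS P hP
    have hodd' : ∀ z : Y0 k K0, P.valuation (j0 (jL0 E K0 (U := U) h)) ≠ P.valuation z ^ 2 := by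
      intro z
      rw [hj0h']
      exact hodd hhY z
    refine ⟨⟨P.comap j0, fun e => ?_, ?_⟩, rfl, ?_⟩
    · rw [ValuationSubring.mem_comap]
      exact hc _ (hEalg e)
    · intro htop
      apply hodd' 1
      have hall : ∀ t, j0 t ∈ P := by
        intro t
        have : t ∈ P.comap j0 := by rw [htop]; trivial
        exact this
      rw [map_one, one_pow]
      refine le_antisymm ((P.valuation_le_one_iff _).2 (hall _)) ?_
      have h4 := (P.valuation_le_one_iff _).2 (hall (jL0 E K0 (U := U) h)⁻¹)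
      rw [map_inv₀, map_inv₀] at h4
      have h5 : 0 < P.valuation (j0 (jL0 E K0 (U := U) h)) :=
        zero_lt_iff.2 ((Valuation.ne_zero_iff _).2 ((_root_.map_ne_zero _).2 hjh0))
      exact (inv_le_one₀ h5).1 h4
    · set b : Place E (L0 E K0 (U := U)) := ⟨P.comap j0, _, _⟩ with hb
      have hbm : ∀ t, t ∈ b.ring ↔ j0 t ∈ P := fun t => Iff.rfl
      have hbn : ∀ t, t ∈ b.ring.nonunits ↔ j0 t ∈ P.nonunits := by
        intro t
        rw [ValuationSubring.mem_nonunits_iff_or, ValuationSubring.mem_nonunits_iff_or, hbm,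
          map_inv₀, map_eq_zero]
      rintro ⟨m, hm⟩
      obtain ⟨t, ht0, ht⟩ := FF.exists_ord_eq hff b m
      have ht2 : t ^ 2 ≠ 0 := pow_ne_zero _ ht0
      have h1 : ord b.ring (jL0 E K0 (U := U) h / t ^ 2) = 0 := by
        rw [FF.ord_div hff b hjh0 ht2, FF.ord_pow hff b ht0, ht]
        change ord b.ring (inL0 h) - _ = 0
        rw [hm]
        push_cast
        ring
      have h2 : jL0 E K0 (U := U) h / t ^ 2 ≠ 0 := div_ne_zero hjh0 ht2
      have h3 : P.valuation (j0 (jL0 E K0 (U := U) h)) = P.valuation (j0 t ^ 2) := by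
        apply val_div_eq P (pow_ne_zero _ ((_root_.map_ne_zero j0).2 ht0))
        · rw [← map_pow, ← map_div₀, ← hbm]
          exact (FF.ord_nonneg_iff hff b h2).1 h1.ge
        · rw [← map_pow, ← map_div₀, ← hbn]
          intro h4
          have h5 := (FF.ord_pos_iff hff b h2).2 h4
          omega
      exact hodd' (j0 t) (by rw [h3, map_pow])
  choose β hβ using hplace
  have hinj : Function.Injective fun P : S => (⟨β P.1 P.2, (hβ P.1 P.2).2⟩ :
      {b : Place E (L0 E K0 (U := U)) // BPl h b}) := by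
    rintro ⟨P, hP⟩ ⟨P', hP'⟩ heq
    have h1 : β P hP = β P' hP' := congrArg Subtype.val heq
    have h2 : P.comap j0 = P'.comap j0 := by
      rw [← (hβ P hP).1, ← (hβ P' hP').1, h1]
    apply Subtype.ext
    ext z
    obtain ⟨t, rfl⟩ := hsurj z
    change t ∈ P.comap j0 ↔ t ∈ P'.comap j0
    rw [h2]
  have h1 := Nat.card_le_card_of_injective _ hinj
  rwa [Nat.card_eq_fintype_card, Fintype.card_coe] at h1

end

end Pool.Agent.TOWS
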