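import Pool.Agent.Helper97.TW.Defs
import Pool.Agent.Helper88.HG2.BTR

/-!
# Project TW (MP_e66f84_ag), block BTRM: the hypothesis `BTR`, with multiplicities

`BTR` of `Ctx.cdM` from `BTR` of `Ctx.cd`: the second component of the options is forgotten.
-/

set_option autoImplicit false

namespace Pool.Agent.TW

open NumberField IsDedekindDomain
open Pool.Agent.HG (Pr nm Ctx Gd BTR)

/-- **Block BTRM** -/
theorem btrM : StmtBTRM := by
  intro hB hSel k L _ _ _ _ _ _ f X a ha hm hfin ι Vι g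
  obtain ⟨C, A, hC, H⟩ := Pool.Agent.HG.btr hB hSel k L f X a ha hm hfin (fun _ _ _ => 1)
  refine ⟨C, A, hC, ?_⟩
  intro m hm1 τ hτ t Y h hY hlog hNm o E hE
  refine H m hm1 (fun p => (τ p).1) (fun p hp => (Finset.mem_sigma.1 (hτ p hp)).1) t Y h hY hlog
    hNm (fun q => (o q).1) E fun e he => ⟨(hE e he).1, fun q hq => ?_, fun p hp i hi => ?_⟩
  · obtain ⟨h1, h2, h3, h4, h5⟩ := (hE e he).2.1 q hq
    exact ⟨h1, h2, h3, (Finset.mem_sigma.1 h4).1, h5⟩
  · exact (hE e he).2.2 p hp i hi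

end Pool.Agent.TW

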