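import Pool.Agent.Helper90.TW.OneRat

/-!
# Project TW: `OneRat` from the only rational branch place of `K0`
-/

set_option autoImplicit false

namespace Pool.Agent.TW

open VC IntermediateField NumberField IsDedekindDomain Pool.Agent.SC Pool.Agent.L Pool.Agent.M

noncomputable section

section geo

variable {k K0 E U : Type} [Field k] [Field K0] [Field E] [Field U]
    [Algebra k K0] [Algebra k E] [Algebra E U] [Algebra K0 U] [Algebra k U] [IsScalarTower k E U]
    [IsScalarTower k K0 U]

/-- the place `b` of `L0` lies over the valuation ring `P` of `K0` -/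
def OverK (b : Place E (L0 E K0 (U := U))) (P : ValuationSubring K0) : Prop :=
  ∀ x : K0, inL0 x ∈ b.ring ↔ x ∈ P

theorem OverK.nonunits {b : Place E (L0 E K0 (U := U))} {P : ValuationSubring K0}
    (h : OverK b P) (x : K0) : inL0 x ∈ b.ring.nonunits ↔ x ∈ P.nonunits := by
  rw [ValuationSubring.mem_nonunits_iff_or, ValuationSubring.mem_nonunits_iff_or]
  have h1 : (inL0 x : L0 E K0 (U := U)) = jL0 E K0 x := rfl
  have h2 : (inL0 x : L0 E K0 (U := U))⁻¹ = inL0 x⁻¹ := by
    rw [h1, ← map_inv₀]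
    rfl
  rw [h2, h, h1, map_eq_zero]

/-- `v(x) = v(y)` in `K0` if it is true in `L0` -/
theorem OverK.val_eq {b : Place E (L0 E K0 (U := U))} {P : ValuationSubring K0}
    (h : OverK b P) {x y : K0} (hy : y ≠ 0)
    (hxy : b.ring.valuation (jL0 E K0 (U := U) x) = b.ring.valuation (jL0 E K0 (U := U) y)) :
    P.valuation x = P.valuation y := by
  have h0 : jL0 E K0 (U := U) y ≠ 0 := (map_ne_zero _).2 hy
  have h1 : b.ring.valuation (jL0 E K0 (U := U) (x / y)) = 1 := by
    rw [map_div₀, map_div₀, hxy, div_self ((Valuation.ne_zero_iff _).2 h0)]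
  apply val_div_eq P hy
  · rw [← h]
    exact (b.ring.valuation_le_one_iff _).1 h1.le
  · rw [← h.nonunits, ValuationSubring.mem_nonunits_iff, not_lt]
    exact h1.ge

/-- There is exactly one place above a rational place of `K0`. -/
theorem place_above [Algebra.IsAlgebraic k E]
    {P : ValuationSubring K0} (hP : RatPl k P) (hPt : P ≠ ⊤) :
    (∃ b : Place E (L0 E K0 (U := U)), OverK b P) ∧
    ∀ b b' : Place E (L0 E K0 (U := U)), OverK b P → OverK b' P → b = b' := by
  constructor
  · obtain ⟨O, hO⟩ := ext_val90 (jL0 E K0 (U := U)) P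
    refine ⟨⟨O, fun c => ?_, ?_⟩, hO⟩
    · have h1 : IsIntegral k c := Algebra.IsIntegral.isIntegral c
      let φ : k →+* O := ((algebraMap E (L0 E K0 (U := U))).comp (algebraMap k E)).codRestrict
        O.toSubring fun a => by
          change algebraMap E (L0 E K0 (U := U)) (algebraMap k E a) ∈ O
          rw [jL0_k, hO]
          exact hP.const a
      have h2 : IsIntegral O (algebraMap E (L0 E K0 (U := U)) c) := by
        obtain ⟨p, hp, hpc⟩ := h1
        refine ⟨p.map φ, hp.map φ, ?_⟩
        have h3 : (algebraMap O (L0 E K0 (U := U))).comp φ =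
            (algebraMap E (L0 E K0 (U := U))).comp (algebraMap k E) := rfl
        rw [Polynomial.eval₂_map, h3, ← Polynomial.hom_eval₂, hpc, map_zero]
      obtain ⟨o, ho⟩ := IsIntegrallyClosed.isIntegral_iff.1 h2
      rw [← ho]
      exact o.2
    · intro h
      apply hPt
      rw [eq_top_iff]
      intro x _
      rw [← hO, h]
      trivial
  · intro b b' h h'
    apply Place.ext
    ext t
    by_cases ht : t = 0
    · rw [ht]
      exact ⟨fun _ => zero_mem _, fun _ => zero_mem _⟩
    obtain ⟨y, hy0, hy⟩ := exists_y hP t ht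
    rw [← ValuationSubring.valuation_le_one_iff, ← ValuationSubring.valuation_le_one_iff,
      hy b.ring b.algebraMap_mem h, hy b'.ring b'.algebraMap_mem h',
      ValuationSubring.valuation_le_one_iff, ValuationSubring.valuation_le_one_iff]
    exact (h y).trans (h' y).symm

/-- It is a branch point if the rational place is one. -/
theorem bpl_above [IsAlgClosed E] [CharZero E] (hff : IsFunctionField E (L0 E K0 (U := U)))
    {P : ValuationSubring K0} (hP : RatPl k P) {b : Place E (L0 E K0 (U := U))} (hb : OverK b P)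
    {h : K0} (hh : h ≠ 0) (hodd : ∀ z : K0, P.valuation h ≠ P.valuation z ^ 2) : BPl h b := by
  intro hdvd
  obtain ⟨m, hm⟩ := hdvd
  obtain ⟨t, ht0, ht⟩ := FF.exists_ord_eq hff b m
  have hj0 : jL0 E K0 (U := U) h ≠ 0 := (map_ne_zero _).2 hh
  have ht2 : t ^ 2 ≠ 0 := pow_ne_zero _ ht0
  have h1 : ord b.ring (jL0 E K0 (U := U) h / t ^ 2) = 0 := by
    rw [FF.ord_div hff b hj0 ht2, FF.ord_pow hff b ht0, ht]
    change ord b.ring (inL0 h) - _ = 0
    rw [hm]
    push_cast
    ring
  have h2 : jL0 E K0 (U := U) h / t ^ 2 ≠ 0 := div_ne_zero hj0 ht2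
  have h3 : b.ring.valuation (jL0 E K0 (U := U) h) = b.ring.valuation (t ^ 2) := by
    apply val_div_eq b.ring ht2
    · exact (FF.ord_nonneg_iff hff b h2).1 h1.ge
    · intro h4
      have h5 := (FF.ord_pos_iff hff b h2).2 h4
      omega
  obtain ⟨y, hy0, hy⟩ := exists_y hP t ht0
  have h4 := hy b.ring b.algebraMap_mem hb
  apply hodd y
  rw [← map_pow]
  apply hb.val_eq (pow_ne_zero _ hy0)
  rw [h3, map_pow, map_pow, map_pow, h4]

end geo

section one

variable {k K0 E U : Type} [Field k] [NumberField k] [Field K0] [Field E] [Field U]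
    [Algebra k K0] [Algebra k E] [Algebra E U] [Algebra K0 U] [Algebra k U] [IsScalarTower k E U]
    [IsScalarTower k K0 U]

/-- a branch point fixed by an action lies over a rational branch place of `K0` -/
theorem below_rat {h : K0} {r : U} (geo : Geo k K0 E U h r) {c : k}
    {Φ : (E ≃ₐ[k] E) →* (U ≃+* U)} (hΦ : Act (K0 := K0) r c Φ)
    {b : Place E (L0 E K0 (U := U))} (hb : BPl h b) (hcon : ∀ σ, Moves (Φ σ) _ b b) :
    ∃ P : ValuationSubring K0, OverK b P ∧ RatPl k P ∧
      ∀ z : K0, P.valuation h ≠ P.valuation z ^ 2 := by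
  have hcl : IsAlgClosed E := geo.clE
  have halg : Algebra.IsAlgebraic k E := geo.algE
  have hch : CharZero E := charZero_of_injective_algebraMap (algebraMap k E).injective
  have hff : IsFunctionField E (L0 E K0 (U := U)) := geo.ff
  have hh0 : h ≠ 0 := by
    rintro rfl
    have h1 := geo.rsq
    rw [map_zero] at h1
    have h2 := pow_eq_zero_iff two_ne_zero |>.1 h1
    exact geo.rnot (by rw [h2]; exact zero_mem _)
  let P : ValuationSubring K0 := b.ring.comap (jL0 E K0 (U := U))
  have hP : OverK b P := fun x => Iff.rfl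
  have hj : ∀ x : K0, jL0 E K0 (U := U) x = inL0 x := fun x => rfl
  refine ⟨P, hP, ⟨fun a => ?_, fun x hxP => ?_⟩, fun z hz => ?_⟩
  · rw [← hP, ← hj, ← jL0_k]
    exact b.algebraMap_mem _
  · obtain ⟨e, he⟩ := FF.exists_residue hff b ((hP x).2 hxP)
    have hfix : ∀ σ : E ≃ₐ[k] E, σ e = e := by
      intro σ
      have h1 := hcon σ
      rw [moves_iff59 hΦ] at h1
      have h2 : res59 hΦ σ (inL0 x - algebraMap E _ e) ∈ b.ring.nonunits := by
        rw [h1]
        exact (FF.nonunits_img (res59 hΦ σ) σ.toRingEquiv (res59_const hΦ σ) b _).2 he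
      have h3 : res59 hΦ σ (inL0 x - algebraMap E _ e) =
          inL0 x - algebraMap E (L0 E K0 (U := U)) (σ e) := by
        rw [map_sub, res59_inL0, res59_const]
        rfl
      rw [h3] at h2
      exact FF.residue_unique b h2 he
    have hgal : IsGalois k E := by
      have h1 : IsAlgClosure k E := ⟨hcl, halg⟩
      exact ⟨⟩
    have hmem : e ∈ (⊥ : IntermediateField k E) := by
      rw [InfiniteGalois.mem_bot_iff_fixed]
      exact hfix
    obtain ⟨a, rfl⟩ := IntermediateField.mem_bot.1 hmem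
    refine ⟨a, ?_⟩
    rw [← hP.nonunits, ← hj, map_sub, ← jL0_k]
    exact he
  · have hz0 : z ≠ 0 := by
      rintro rfl
      rw [map_zero, zero_pow two_ne_zero, Valuation.zero_iff] at hz
      exact hh0 hz
    apply hb
    have hv : P.valuation (h / z ^ 2) = 1 := by
      rw [map_div₀, hz, map_pow, div_self]
      exact pow_ne_zero _ ((Valuation.ne_zero_iff _).2 hz0)
    have h1 : inL0 (h / z ^ 2) ∈ b.ring := by
      rw [hP, ← P.valuation_le_one_iff, hv]
    have h2 : inL0 (h / z ^ 2) ∉ b.ring.nonunits := by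
      rw [hP.nonunits, ValuationSubring.mem_nonunits_iff, hv]
      exact lt_irrefl _
    rw [← hj] at h1 h2
    have h3 : jL0 E K0 (U := U) (h / z ^ 2) ≠ 0 :=
      (map_ne_zero _).2 (div_ne_zero hh0 (pow_ne_zero _ hz0))
    have h4 : ord b.ring (jL0 E K0 (U := U) (h / z ^ 2)) = 0 := by
      have h5 := (FF.ord_nonneg_iff hff b h3).2 h1
      have h6 := mt (FF.ord_pos_iff hff b h3).1 h2
      omega
    have hjz : jL0 E K0 (U := U) z ≠ 0 := (map_ne_zero _).2 hz0
    have hjh : jL0 E K0 (U := U) h ≠ 0 := (map_ne_zero _).2 hh0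
    rw [map_div₀, map_pow, FF.ord_div hff b hjh (pow_ne_zero _ hjz),
      FF.ord_pow hff b hjz] at h4
    rw [← hj]
    exact ⟨ord b.ring (jL0 E K0 (U := U) z), by push_cast at h4; linarith⟩

/-- **One rational branch place**: the place above it is the only branch place fixed by all
actions. -/
theorem oneRat_of {h : K0} {r : U} (geo : Geo k K0 E U h r) {P₀ : ValuationSubring K0}
    (hP : RatPl k P₀) (hodd : ∀ z : K0, P₀.valuation h ≠ P₀.valuation z ^ 2)
    (huniq : ∀ P : ValuationSubring K0, RatPl k P → (∀ z : K0, P.valuation h ≠ P.valuation z ^ 2) →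
      P = P₀)
    (h5 : 5 ≤ Nat.card {b : Place E (L0 E K0 (U := U)) // BPl h b}) :
    ∃ b₀ : Place E (L0 E K0 (U := U)), OneRat (k := k) h r b₀ ∧ OverK b₀ P₀ ∧
      ∀ b : Place E (L0 E K0 (U := U)), OverK b P₀ → b = b₀ := by
  have hcl : IsAlgClosed E := geo.clE
  have halg : Algebra.IsAlgebraic k E := geo.algE
  have hch : CharZero E := charZero_of_injective_algebraMap (algebraMap k E).injective
  have hff : IsFunctionField E (L0 E K0 (U := U)) := geo.ff
  have hh0 : h ≠ 0 := by
    rintro rfl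
    have h1 := geo.rsq
    rw [map_zero] at h1
    have h2 := pow_eq_zero_iff two_ne_zero |>.1 h1
    exact geo.rnot (by rw [h2]; exact zero_mem _)
  have hPt : P₀ ≠ ⊤ := by
    intro h1
    apply hodd 1
    rw [map_one, one_pow]
    have h2 : h ∈ P₀ := by rw [h1]; trivial
    have h3 : h⁻¹ ∈ P₀ := by rw [h1]; trivial
    refine le_antisymm ((P₀.valuation_le_one_iff _).2 h2) ?_
    have h4 := (P₀.valuation_le_one_iff _).2 h3
    rw [map_inv₀] at h4
    have h5 : 0 < P₀.valuation h := zero_lt_iff.2 ((Valuation.ne_zero_iff _).2 hh0)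
    exact (inv_le_one₀ h5).1 h4
  obtain ⟨⟨b₀, hb₀⟩, hun⟩ := place_above (E := E) (U := U) hP hPt
  refine ⟨b₀, ⟨bpl_above hff hP hb₀ hh0 hodd, ?_, ?_, h5⟩, hb₀, fun b hb => hun b b₀ hb hb₀⟩
  · intro c Φ hc hΦ σ
    rw [moves_iff59 hΦ]
    apply hun _ _ hb₀
    intro x
    rw [← hb₀ x, mv59, ← res59_inL0 hΦ σ x, FF.mem_img', res59_inL0 hΦ σ x]
  · intro c Φ hc hΦ b hb hne
    by_contra hcon
    push Not at hcon
    obtain ⟨P, h1, h2, h3⟩ := below_rat geo hΦ hb hcon
    rw [huniq P h2 h3] at h1
    exact hne (hun b b₀ h1 hb₀)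

end one

end

end Pool.Agent.TW
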