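import Pool.Agent.Helper59.M.NR
import Pool.Agent.Helper97.TW.Defs

/-!
# Project TW: the place of `L0 = E K0` above a rational place of `K0`

`P₀` a place of `K0` with residue field `k`.  Every element of `L0` has at every place of `L0` above
`P₀` the value of an element of `K0` (which does not depend on the place).  So there is exactly one
place above `P₀`; it is a branch point if `P₀` is one, and it is fixed by all actions.
-/

set_option autoImplicit false

namespace Pool.Agent.TW

open VC IntermediateField NumberField IsDedekindDomain Pool.Agent.SC Pool.Agent.L Pool.Agent.M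

noncomputable section

/-- `P` is a rational place of `K0 / k` -/
structure RatPl (k : Type) {K0 : Type} [Field k] [Field K0] [Algebra k K0]
    (P : ValuationSubring K0) : Prop where
  const : ∀ a : k, algebraMap k K0 a ∈ P
  rat : ∀ x ∈ P, ∃ a : k, x - algebraMap k K0 a ∈ P.nonunits

/-- valuation rings extend along embeddings of fields -/
theorem ext_val90 {A L : Type} [Field A] [Field L] (f : A →+* L) (V : ValuationSubring A) :
    ∃ O : ValuationSubring L, ∀ x : A, f x ∈ O ↔ x ∈ V := by
  obtain ⟨O, hO⟩ := (LocalSubring.map f V.toLocalSubring).exists_le_valuationSubring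
  obtain ⟨hle, hloc⟩ := LocalSubring.le_def.1 hO
  have hmem : ∀ x ∈ V, f x ∈ (LocalSubring.map f V.toLocalSubring).toSubring := by
    intro x hx
    exact ⟨x, hx, rfl⟩
  refine ⟨O, fun x => ⟨fun hx => ?_, fun hx => hle (hmem x hx)⟩⟩
  by_contra hxV
  have hx0 : x ≠ 0 := by
    rintro rfl
    exact hxV V.zero_mem
  have hinv : x⁻¹ ∈ V := (V.mem_or_inv_mem x).resolve_left hxV
  have hu : IsUnit (Subring.inclusion hle ⟨f x⁻¹, hmem _ hinv⟩) := by
    refine IsUnit.of_mul_eq_one (⟨f x, hx⟩ : O.toLocalSubring.toSubring) ?_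
    apply Subtype.ext
    change f x⁻¹ * f x = 1
    rw [← map_mul, inv_mul_cancel₀ hx0, map_one]
  obtain ⟨y, hy⟩ := (hloc.map_nonunit _ hu).exists_right_inv
  obtain ⟨z, hz, hzy⟩ := y.2
  have h1 : f x⁻¹ * f z = 1 := by
    have h2 := congrArg Subtype.val hy
    have h3 : f z = (y : L) := hzy
    rw [h3]
    exact h2
  rw [← map_mul, ← map_one f] at h1
  have h2 := f.injective h1
  have h3 : z = x := by
    calc z = x * (x⁻¹ * z) := by rw [← mul_assoc, mul_inv_cancel₀ hx0, one_mul]
      _ = x := by rw [h2, mul_one]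
  exact hxV (h3 ▸ hz)

/-- an element of `P` and its inverse: valuation -/
theorem val_div_eq {F : Type} [Field F] (V : ValuationSubring F) {a b : F} (hb : b ≠ 0)
    (h1 : a / b ∈ V) (h2 : a / b ∉ V.nonunits) : V.valuation a = V.valuation b := by
  have h3 : V.valuation (a / b) = 1 := by
    refine le_antisymm ((V.valuation_le_one_iff _).2 h1) ?_
    rw [ValuationSubring.mem_nonunits_iff, not_lt] at h2
    exact h2
  rw [map_div₀, div_eq_one_iff_eq ((Valuation.ne_zero_iff _).2 hb)] at h3
  exact h3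

section

variable {k K0 E L : Type} [Field k] [Field K0] [Field E] [Field L] [Algebra k K0] [Algebra k E]

/-- The sums `∑ e_i y_i`, `e_i ∈ E`, `y_i ∈ K0`: value at the places above a rational place. -/
theorem sum_val {i : E →+* L} {j : K0 →+* L} (hij : ∀ a : k, i (algebraMap k E a) = j (algebraMap k K0 a))
    {P : ValuationSubring K0} (hP : RatPl k P) {ι : Type} (e : ι → E)
    (he : LinearIndependent k e) (s : Finset ι) (y : ι → K0) :
    (∀ m ∈ s, y m = 0) ∨ ∃ m ∈ s, y m ≠ 0 ∧ ∀ b : ValuationSubring L, (∀ c : E, i c ∈ b) →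
      (∀ x : K0, j x ∈ b ↔ x ∈ P) →
      b.valuation (∑ m ∈ s, i (e m) * j (y m)) = b.valuation (j (y m)) := by
  classical
  by_cases hall : ∀ m ∈ s, y m = 0
  · exact Or.inl hall
  right
  push Not at hall
  -- the summand of maximal value
  obtain ⟨m₁, hm₁, hy₁⟩ := hall
  obtain ⟨m, hm, hmax⟩ := Finset.exists_max_image s (fun m => P.valuation (y m)) ⟨m₁, hm₁⟩
  have hym : y m ≠ 0 := by
    intro h0
    have h1 := hmax m₁ hm₁
    rw [h0, map_zero, le_zero_iff, Valuation.zero_iff] at h1
    exact hy₁ h1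
  refine ⟨m, hm, hym, fun b hbE hbP => ?_⟩
  have hjy : j (y m) ≠ 0 := (map_ne_zero j).2 hym
  -- the residues
  have hq : ∀ m' ∈ s, y m' / y m ∈ P := by
    intro m' hm'
    rw [← P.valuation_le_one_iff, map_div₀]
    exact div_le_one_of_le₀ (hmax m' hm') zero_le
  have hres : ∀ m', ∃ a : k, m' ∈ s → y m' / y m - algebraMap k K0 a ∈ P.nonunits := by
    intro m'
    by_cases hm' : m' ∈ s
    · obtain ⟨a, ha⟩ := hP.rat _ (hq m' hm')
      exact ⟨a, fun _ => ha⟩
    · exact ⟨0, fun h => absurd h hm'⟩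
  choose a ha using hres
  have hbn : ∀ x : K0, x ∈ P.nonunits → j x ∈ b.nonunits := by
    intro x hx
    rw [ValuationSubring.mem_nonunits_iff_or] at hx ⊢
    rcases hx with h1 | h1
    · left; rw [h1, map_zero]
    · right
      rw [← map_inv₀, hbP]
      exact h1
  have hcn : ∀ c : E, i c ∈ b.nonunits → c = 0 := by
    intro c hc
    by_contra hc0
    rcases (ValuationSubring.mem_nonunits_iff_or _).1 hc with h1 | h1
    · exact hc0 ((map_eq_zero i).1 h1)
    · apply h1
      rw [← map_inv₀]
      exact hbE _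
  apply val_div_eq b hjy
  · rw [Finset.sum_div]
    refine sum_mem fun m' hm' => ?_
    rw [mul_div_assoc, ← map_div₀]
    exact mul_mem (hbE _) ((hbP _).2 (hq m' hm'))
  · intro hn
    -- the residue is `∑ e_m' a_m'`
    have h1 : (∑ m' ∈ s, i (e m') * j (y m')) / j (y m) -
        ∑ m' ∈ s, i (e m') * j (y m' / y m - algebraMap k K0 (a m')) =
        i (∑ m' ∈ s, a m' • e m') := by
      rw [Finset.sum_div, ← Finset.sum_sub_distrib, map_sum]
      refine Finset.sum_congr rfl fun m' _ => ?_
      rw [map_sub, map_div₀, Algebra.smul_def, map_mul, hij]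
      ring
    have h2 : ∑ m' ∈ s, i (e m') * j (y m' / y m - algebraMap k K0 (a m')) ∈ b.nonunits := by
      rw [ValuationSubring.mem_nonunits_iff]
      refine Valuation.map_sum_lt _ one_ne_zero fun m' hm' => ?_
      rw [map_mul]
      have h3 : b.valuation (i (e m')) ≤ 1 := (b.valuation_le_one_iff _).2 (hbE _)
      have h4 : b.valuation (j (y m' / y m - algebraMap k K0 (a m'))) < 1 :=
        (ValuationSubring.mem_nonunits_iff _).1 (hbn _ (ha m' hm'))
      exact mul_lt_one_val h3 h4
    have h3 : i (∑ m' ∈ s, a m' • e m') ∈ b.nonunits := by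
      rw [← h1, ValuationSubring.mem_nonunits_iff]
      exact Valuation.map_sub_lt _ ((ValuationSubring.mem_nonunits_iff _).1 hn)
        ((ValuationSubring.mem_nonunits_iff _).1 h2)
    have h4 := hcn _ h3
    have h5 := linearIndependent_iff'.1 he s a h4 m hm
    have h6 := ha m hm
    rw [h5, map_zero, sub_zero, div_self hym, ValuationSubring.mem_nonunits_iff, map_one] at h6
    exact lt_irrefl _ h6

/-- the sums `∑ e_i y_i` form a subring -/
def sumRing {ι : Type} (i : E →+* L) (j : K0 →+* L)
    (hij : ∀ a : k, i (algebraMap k E a) = j (algebraMap k K0 a)) (B : Module.Basis ι k E) :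
    Subring L where
  carrier := {t | ∃ (s : Finset ι) (y : ι → K0), t = ∑ m ∈ s, i (B m) * j (y m)}
  mul_mem' := by
    classical
    have hadd : ∀ {t t' : L}, (∃ (s : Finset ι) (y : ι → K0), t = ∑ m ∈ s, i (B m) * j (y m)) →
        (∃ (s : Finset ι) (y : ι → K0), t' = ∑ m ∈ s, i (B m) * j (y m)) →
        ∃ (s : Finset ι) (y : ι → K0), t + t' = ∑ m ∈ s, i (B m) * j (y m) := by
      rintro t t' ⟨s, y, rfl⟩ ⟨s', y', rfl⟩
      refine ⟨s ∪ s', fun m => (if m ∈ s then y m else 0) + (if m ∈ s' then y' m else 0), ?_⟩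
      simp only [map_add, mul_add, Finset.sum_add_distrib, apply_ite j, map_zero, mul_ite, mul_zero,
        Finset.sum_ite_mem]
      rw [Finset.inter_eq_right.2 (Finset.subset_union_left), Finset.inter_eq_right.2
        (Finset.subset_union_right)]
    have hzero : ∃ (s : Finset ι) (y : ι → K0), (0 : L) = ∑ m ∈ s, i (B m) * j (y m) :=
      ⟨∅, fun _ => 0, by simp⟩
    have hsum : ∀ (T : Finset ι) (g : ι → L), (∀ m ∈ T, ∃ (s : Finset ι) (y : ι → K0), g m =
        ∑ m ∈ s, i (B m) * j (y m)) → ∃ (s : Finset ι) (y : ι → K0),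
        ∑ m ∈ T, g m = ∑ m ∈ s, i (B m) * j (y m) := by
      intro T g
      induction T using Finset.induction_on with
      | empty => intro _; simpa using hzero
      | insert m T hm ih =>
        intro h
        rw [Finset.sum_insert hm]
        exact hadd (h m (Finset.mem_insert_self _ _)) (ih fun m' hm' =>
          h m' (Finset.mem_insert_of_mem hm'))
    have hmon : ∀ (c : E) (x : K0), ∃ (s : Finset ι) (y : ι → K0), i c * j x =
        ∑ m ∈ s, i (B m) * j (y m) := by
      intro c x
      refine ⟨(B.repr c).support, fun m => algebraMap k K0 (B.repr c m) * x, ?_⟩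
      have h1 : c = ∑ m ∈ (B.repr c).support, (B.repr c m) • B m := (B.linearCombination_repr c).symm
      conv_lhs => rw [h1]
      rw [map_sum, Finset.sum_mul]
      refine Finset.sum_congr rfl fun m _ => ?_
      rw [Algebra.smul_def, map_mul, hij, map_mul]
      ring
    rintro _ _ ⟨s, y, rfl⟩ ⟨s', y', rfl⟩
    rw [Finset.sum_mul_sum]
    refine hsum _ _ fun m _ => hsum _ _ fun m' _ => ?_
    obtain ⟨s'', y'', h⟩ := hmon (B m * B m') (y m * y' m')
    refine ⟨s'', y'', ?_⟩
    rw [← h, map_mul, map_mul]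
    ring
  one_mem' := by
    refine ⟨(B.repr 1).support, fun m => algebraMap k K0 (B.repr 1 m), ?_⟩
    have h1 : (1 : E) = ∑ m ∈ (B.repr 1).support, (B.repr 1 m) • B m :=
      (B.linearCombination_repr 1).symm
    rw [← map_one i]
    conv_lhs => rw [h1]
    rw [map_sum]
    refine Finset.sum_congr rfl fun m _ => ?_
    rw [Algebra.smul_def, map_mul, hij]
    ring
  add_mem' := by
    classical
    rintro t t' ⟨s, y, rfl⟩ ⟨s', y', rfl⟩
    refine ⟨s ∪ s', fun m => (if m ∈ s then y m else 0) + (if m ∈ s' then y' m else 0), ?_⟩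
    simp only [map_add, mul_add, Finset.sum_add_distrib, apply_ite j, map_zero, mul_ite, mul_zero,
      Finset.sum_ite_mem]
    rw [Finset.inter_eq_right.2 (Finset.subset_union_left), Finset.inter_eq_right.2
      (Finset.subset_union_right)]
  zero_mem' := ⟨∅, fun _ => 0, by simp⟩
  neg_mem' := by
    rintro _ ⟨s, y, rfl⟩
    exact ⟨s, fun m => - y m, by simp⟩

theorem mem_sumRing_E {ι : Type} {i : E →+* L} {j : K0 →+* L}
    {hij : ∀ a : k, i (algebraMap k E a) = j (algebraMap k K0 a)} {B : Module.Basis ι k E} (c : E) :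
    i c ∈ sumRing i j hij B := by
  refine ⟨(B.repr c).support, fun m => algebraMap k K0 (B.repr c m), ?_⟩
  have h1 : c = ∑ m ∈ (B.repr c).support, (B.repr c m) • B m :=
    (B.linearCombination_repr c).symm
  conv_lhs => rw [h1]
  rw [map_sum]
  refine Finset.sum_congr rfl fun m _ => ?_
  rw [Algebra.smul_def, map_mul, hij]
  ring

theorem mem_sumRing_K0 {ι : Type} {i : E →+* L} {j : K0 →+* L}
    {hij : ∀ a : k, i (algebraMap k E a) = j (algebraMap k K0 a)} {B : Module.Basis ι k E}
    (x : K0) : j x ∈ sumRing i j hij B := by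
  refine ⟨(B.repr 1).support, fun m => algebraMap k K0 (B.repr 1 m) * x, ?_⟩
  have h1 : (1 : E) = ∑ m ∈ (B.repr 1).support, (B.repr 1 m) • B m :=
    (B.linearCombination_repr 1).symm
  have h2 : j x = i 1 * j x := by rw [map_one, one_mul]
  rw [h2]
  conv_lhs => rw [h1]
  rw [map_sum, Finset.sum_mul]
  refine Finset.sum_congr rfl fun m _ => ?_
  rw [Algebra.smul_def, map_mul, hij, map_mul]
  ring

/-- the value of an element of the subring -/
theorem sumRing_val {ι : Type} {i : E →+* L} {j : K0 →+* L}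
    {hij : ∀ a : k, i (algebraMap k E a) = j (algebraMap k K0 a)} {B : Module.Basis ι k E}
    {P : ValuationSubring K0} (hP : RatPl k P) {t : L} (ht : t ∈ sumRing i j hij B) (ht0 : t ≠ 0) :
    ∃ y : K0, y ≠ 0 ∧ ∀ b : ValuationSubring L, (∀ c : E, i c ∈ b) →
      (∀ x : K0, j x ∈ b ↔ x ∈ P) → b.valuation t = b.valuation (j y) := by
  obtain ⟨s, y, rfl⟩ := ht
  rcases sum_val hij hP B B.linearIndependent s y with h | ⟨m, -, hm0, h⟩
  · exfalso
    apply ht0
    refine Finset.sum_eq_zero fun m hm => ?_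
    rw [h m hm, map_zero, mul_zero]
  · exact ⟨y m, hm0, h⟩

end

section geo

variable {k K0 E U : Type} [Field k] [Field K0] [Field E] [Field U]
    [Algebra k K0] [Algebra k E] [Algebra E U] [Algebra K0 U] [Algebra k U] [IsScalarTower k E U]
    [IsScalarTower k K0 U]

/-- `K0 → L0` -/
def jL0 (E K0 : Type) {U : Type} [Field E] [Field K0] [Field U] [Algebra E U] [Algebra K0 U] :
    K0 →+* L0 E K0 (U := U) :=
  (algebraMap K0 U).codRestrict (L0 E K0 (U := U)).toSubfield fun x =>
    subset_adjoin _ _ ⟨x, rfl⟩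

theorem jL0_k (a : k) : algebraMap E (L0 E K0 (U := U)) (algebraMap k E a) =
    jL0 E K0 (U := U) (algebraMap k K0 a) := by
  apply Subtype.ext
  change algebraMap E U (algebraMap k E a) = algebraMap K0 U (algebraMap k K0 a)
  rw [← IsScalarTower.algebraMap_apply k K0 U, ← IsScalarTower.algebraMap_apply k E U]

/-- **KEY**: the value of an element of `L0` at the places above a rational place of `K0` is the
value of an element of `K0`. -/
theorem exists_y {P : ValuationSubring K0} (hP : RatPl k P) (t : L0 E K0 (U := U)) (ht : t ≠ 0) :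
    ∃ y : K0, y ≠ 0 ∧ ∀ b : ValuationSubring (L0 E K0 (U := U)),
      (∀ c : E, algebraMap E _ c ∈ b) → (∀ x : K0, jL0 E K0 (U := U) x ∈ b ↔ x ∈ P) →
      b.valuation t = b.valuation (jL0 E K0 (U := U) y) := by
  classical
  let B := Module.Basis.ofVectorSpace k E
  let R := sumRing (algebraMap E (L0 E K0 (U := U))) (jL0 E K0 (U := U)) jL0_k B
  have key : ∀ z ∈ L0 E K0 (U := U), ∃ n d : L0 E K0 (U := U), n ∈ R ∧ d ∈ R ∧ d ≠ 0 ∧
      z * (d : U) = (n : U) := by
    intro z hz
    induction hz using IntermediateField.adjoin_induction with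
    | mem z hz =>
      obtain ⟨x, rfl⟩ := hz
      exact ⟨jL0 E K0 x, 1, mem_sumRing_K0 x, one_mem _, one_ne_zero, mul_one _⟩
    | algebraMap c =>
      exact ⟨algebraMap E _ c, 1, mem_sumRing_E c, one_mem _, one_ne_zero, mul_one _⟩
    | add z z' _ _ h h' =>
      obtain ⟨n, d, hn, hd, hd0, h1⟩ := h
      obtain ⟨n', d', hn', hd', hd0', h1'⟩ := h'
      refine ⟨n * d' + n' * d, d * d', add_mem (mul_mem hn hd') (mul_mem hn' hd), mul_mem hd hd',
        mul_ne_zero hd0 hd0', ?_⟩
      push_cast
      rw [← h1, ← h1']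
      ring
    | inv z _ h =>
      obtain ⟨n, d, hn, hd, hd0, h1⟩ := h
      by_cases hz0 : z = 0
      · refine ⟨0, 1, zero_mem _, one_mem _, one_ne_zero, ?_⟩
        rw [hz0, inv_zero]
        simp
      · have hn0 : n ≠ 0 := by
          rintro rfl
          have h2 : z * (d : U) = 0 := h1
          rcases mul_eq_zero.1 h2 with h3 | h3
          · exact hz0 h3
          · exact hd0 (Subtype.ext h3)
        refine ⟨d, n, hd, hn, hn0, ?_⟩
        rw [← h1, ← mul_assoc, inv_mul_cancel₀ hz0, one_mul]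
    | mul z z' _ _ h h' =>
      obtain ⟨n, d, hn, hd, hd0, h1⟩ := h
      obtain ⟨n', d', hn', hd', hd0', h1'⟩ := h'
      refine ⟨n * n', d * d', mul_mem hn hn', mul_mem hd hd', mul_ne_zero hd0 hd0', ?_⟩
      push_cast
      rw [← h1, ← h1']
      ring
  obtain ⟨n, d, hn, hd, hd0, h1⟩ := key t t.2
  have h2 : t * d = n := Subtype.ext h1
  have hn0 : n ≠ 0 := by rw [← h2]; exact mul_ne_zero ht hd0
  obtain ⟨y, hy0, hy⟩ := sumRing_val hP hn hn0
  obtain ⟨y', hy0', hy'⟩ := sumRing_val hP hd hd0
  refine ⟨y / y', div_ne_zero hy0 hy0', fun b hbE hbP => ?_⟩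
  have h3 : t = n / d := by rw [eq_div_iff hd0, h2]
  rw [h3, map_div₀, hy b hbE hbP, hy' b hbE hbP, map_div₀, map_div₀]

end geo

end

end Pool.Agent.TW
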