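import Pool.Agent.Helper90.TW.OrbDefs

/-!
# Project TW, ORBb: elementary facts, and OB1
-/

set_option autoImplicit false

namespace Pool.Agent.TOW

open VC IntermediateField NumberField IsDedekindDomain Pool.Agent.SC Pool.Agent.L Pool.Agent.M

section gen

variable {E K0 U : Type} [Field E] [Field K0] [Field U] [Algebra E U] [Algebra K0 U] {r : U}

theorem mm_K0 (x : K0) : algebraMap K0 U x ∈ MM E K0 r :=
  IntermediateField.subset_adjoin _ _ (Or.inl ⟨x, rfl⟩)

theorem mm_r : r ∈ MM E K0 r := IntermediateField.subset_adjoin _ _ (Or.inr rfl)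

theorem mm_E (e : E) : algebraMap E U e ∈ MM E K0 r := (MM E K0 r).algebraMap_mem e

theorem nx_mm {m : ℕ} {z : U} (h : z ∈ MM E K0 r) : z ∈ NX E K0 r m :=
  IntermediateField.subset_adjoin _ _ (Or.inl h)

theorem nx_rx {m : ℕ} {w : U} (h : RX E K0 r m w) : w ∈ NX E K0 r m :=
  IntermediateField.subset_adjoin _ _ (Or.inr h)

/-- two ring homomorphisms which agree on `M` and on the roots agree on `NX` -/
theorem nx_agree {m : ℕ} {S : Type*} [Field S] (φ ψ : U →+* S)
    (h1 : ∀ z ∈ MM E K0 r, φ z = ψ z) (h2 : ∀ w, RX E K0 r m w → φ w = ψ w) :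
    ∀ z ∈ NX E K0 r m, φ z = ψ z := by
  intro z hz
  induction hz using IntermediateField.adjoin_induction with
  | mem y hy => exact hy.elim (h1 y) (h2 y)
  | algebraMap e => exact h1 _ (mm_E e)
  | add y y' _ _ h h' => rw [map_add, map_add, h, h']
  | inv y _ h => rw [map_inv₀, map_inv₀, h]
  | mul y y' _ _ h h' => rw [map_mul, map_mul, h, h']

/-- two ring homomorphisms which agree on `E`, `K0` and `r` agree on `M` -/
theorem mm_agree {S : Type*} [Field S] (φ ψ : U →+* S)
    (h0 : ∀ e : E, φ (algebraMap E U e) = ψ (algebraMap E U e))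
    (h1 : ∀ x : K0, φ (algebraMap K0 U x) = ψ (algebraMap K0 U x)) (h2 : φ r = ψ r) :
    ∀ z ∈ MM E K0 r, φ z = ψ z := by
  intro z hz
  induction hz using IntermediateField.adjoin_induction with
  | mem y hy =>
    rcases hy with ⟨x, rfl⟩ | rfl
    · exact h1 x
    · exact h2
  | algebraMap e => exact h0 e
  | add y y' _ _ h h' => rw [map_add, map_add, h, h']
  | inv y _ h => rw [map_inv₀, map_inv₀, h]
  | mul y y' _ _ h h' => rw [map_mul, map_mul, h, h']

theorem AuE.toAu {T : U ≃+* U} (h : AuE E K0 T) : Au E K0 T :=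
  ⟨h.fixK, fun e => ⟨e, h.fixE e⟩⟩

theorem AuE.mm {a : U ≃+* U} (h : AuE E K0 a) (hr : a r = r) : ∀ z ∈ MM E K0 r, a z = z :=
  mm_agree (a : U →+* U) (RingHom.id U) h.fixE h.fixK hr

/-- automorphisms preserve `M` -/
theorem Au.mm {T : U ≃+* U} (h : Au E K0 T) {y : K0} (hr : r ^ 2 = algebraMap K0 U y) :
    ∀ z ∈ MM E K0 r, T z ∈ MM E K0 r := by
  intro z hz
  induction hz using IntermediateField.adjoin_induction with
  | mem y' hy =>
    rcases hy with ⟨x, rfl⟩ | rfl
    · rw [h.fixK]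
      exact mm_K0 x
    · have h1 : (T y') ^ 2 = y' ^ 2 := by rw [← map_pow, hr, h.fixK]
      rcases sq_eq_sq_iff_eq_or_eq_neg.1 h1 with h2 | h2 <;> rw [h2]
      · exact mm_r
      · exact neg_mem mm_r
  | algebraMap e =>
    obtain ⟨e', he'⟩ := h.presE e
    rw [he']
    exact mm_E e'
  | add y y' _ _ h h' => rw [map_add]; exact add_mem h h'
  | inv y _ h => rw [map_inv₀]; exact inv_mem h
  | mul y y' _ _ h h' => rw [map_mul]; exact mul_mem h h'

theorem Au.rx {T : U ≃+* U} (h : Au E K0 T) {y : K0} (hr : r ^ 2 = algebraMap K0 U y) {m : ℕ}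
    {w : U} (hw : RX E K0 r m w) : RX E K0 r m (T w) :=
  ⟨fun h' => hw.1 (by simpa using h'), by rw [← map_pow]; exact h.mm hr _ hw.2⟩

theorem RX.mul90 {m : ℕ} {w w' : U} (h : RX E K0 r m w) (h' : RX E K0 r m w') :
    RX E K0 r m (w * w') :=
  ⟨mul_ne_zero h.1 h'.1, by rw [mul_pow]; exact mul_mem h.2 h'.2⟩

theorem RX.prod90 {m : ℕ} {ι : Type*} (s : Finset ι) (w : ι → U) (h : ∀ i ∈ s, RX E K0 r m (w i)) :
    RX E K0 r m (∏ i ∈ s, w i) :=
  ⟨Finset.prod_ne_zero_iff.2 fun i hi => (h i hi).1, by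
    rw [← Finset.prod_pow]; exact prod_mem fun i hi => (h i hi).2⟩

theorem rx_mm {m : ℕ} {z : U} (h : z ∈ MM E K0 r) (h0 : z ≠ 0) : RX E K0 r m z :=
  ⟨h0, pow_mem h m⟩

/-- an element of `U` whose `m`-th power is `1` is a constant -/
theorem root_one [IsAlgClosed E] {m : ℕ} (hm : 0 < m) {z : U} (hz : z ^ m = 1) :
    ∃ e : E, algebraMap E U e = z := by
  have hint : IsIntegral E z := IsIntegral.of_pow hm (by rw [hz]; exact isIntegral_one)
  have h1 := IsAlgClosed.degree_eq_one_of_irreducible E (minpoly.irreducible hint)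
  exact minpoly.mem_range_of_degree_eq_one E z h1

/-- automorphisms over `M` multiply roots by roots of unity -/
theorem AuE.root [IsAlgClosed E] {a : U ≃+* U} (h : AuE E K0 a) (hr : a r = r) {m : ℕ}
    (hm : 0 < m) {w : U} (hw : RX E K0 r m w) :
    ∃ e : E, e ^ m = 1 ∧ a w = algebraMap E U e * w := by
  have h1 : (a w * w⁻¹) ^ m = 1 := by
    rw [mul_pow, ← map_pow, h.mm hr _ hw.2, inv_pow, mul_inv_cancel₀ (pow_ne_zero m hw.1)]
  obtain ⟨e, he⟩ := root_one (E := E) hm h1
  refine ⟨e, ?_, ?_⟩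
  · apply (algebraMap E U).injective
    rw [map_pow, he, h1, map_one]
  · rw [he, mul_assoc, inv_mul_cancel₀ hw.1, mul_one]

end gen

/-- **OB1** -/
theorem oB1 (h2 : StmtKX2) : StmtOB1 := by
  intro k K0 E U _ _ _ _ _ _ _ _ _ _ _ _ x f r H n a i ha har hi hir
  have hcl := H.geo.clE
  have hm : 0 < 2 ^ n := by positivity
  have hiM : ∀ w : U, RX E K0 r (2 ^ n) w → w * i w ∈ MM E K0 r := fun w hw =>
    (h2 k K0 E U x f r H).2.1 i hi hir n w hw
  constructor
  · intro hcomm
    refine ⟨ha, har, fun w hw => ?_⟩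
    obtain ⟨e, -, hew⟩ := ha.root har hm hw
    have h1 := hcomm w (nx_rx hw)
    have h3 : a (w * i w) = w * i w := ha.mm har _ (hiM w hw)
    rw [map_mul, h1, hew, map_mul, hi.fixE] at h3
    have h4 : i w ≠ 0 := fun h' => hw.1 (by simpa using h')
    have h5 : algebraMap E U e * algebraMap E U e = 1 := by
      have h6 : (algebraMap E U e * algebraMap E U e - 1) * (w * i w) = 0 := by
        linear_combination h3
      rcases mul_eq_zero.1 h6 with h7 | h7
      · exact sub_eq_zero.1 h7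
      · exact absurd h7 (mul_ne_zero hw.1 h4)
    rcases mul_self_eq_one_iff.1 h5 with h6 | h6
    · left; rw [hew, h6, one_mul]
    · right; rw [hew, h6, neg_one_mul]
  · intro hP
    refine nx_agree ((i.trans a : U ≃+* U) : U →+* U) ((a.trans i : U ≃+* U) : U →+* U) ?_ ?_
    · intro z hz
      change a (i z) = i (a z)
      have h1 : r ^ 2 = algebraMap K0 U (Polynomial.aeval x f) := H.geo.rsq
      rw [ha.mm har _ hz, ha.mm har _ (hi.toAu.mm h1 _ hz)]
    · intro w hw
      change a (i w) = i (a w)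
      have h1 : a (w * i w) = w * i w := ha.mm har _ (hiM w hw)
      rw [map_mul] at h1
      rcases hP.pm w hw with h3 | h3
      · rw [h3] at h1 ⊢
        exact mul_left_cancel₀ hw.1 h1
      · rw [h3] at h1 ⊢
        rw [map_neg]
        have h4 : w * a (i w) = w * -i w := by
          rw [mul_neg, ← h1]; ring
        exact mul_left_cancel₀ hw.1 h4

end Pool.Agent.TOW
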