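import Pool.Agent.Helper90.TW.OrbB1

/-!
# Project TW, ORBb: OB3
-/

set_option autoImplicit false
set_option linter.unusedSectionVars false
set_option linter.unusedVariables false

namespace Pool.Agent.TOW

open VC IntermediateField NumberField IsDedekindDomain Pool.Agent.SC Pool.Agent.L Pool.Agent.M

section gen

variable {k K0 E U : Type} [Field k] [NumberField k] [Field K0] [Field E] [Field U] [Algebra k K0]
    [Algebra k E] [Algebra E U] [Algebra K0 U] [Algebra k U] [IsScalarTower k E U]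
    [IsScalarTower k K0 U] {x : K0} {f : Polynomial k} {r : U}

/-- `x - β ≠ 0` -/
theorem Hyp.sub_ne (H : Hyp E x f r) (β : E) : algebraMap K0 U x - algebraMap E U β ≠ 0 := by
  intro h
  have halg := H.geo.algE
  have h1 : IsAlgebraic k (algebraMap K0 U x) := by
    rw [sub_eq_zero.1 h]
    exact (Algebra.IsAlgebraic.isAlgebraic (R := k) β).algebraMap
  exact H.tr ((isAlgebraic_algebraMap_iff (algebraMap K0 U).injective).1 h1)

/-- the roots -/
noncomputable def rts (f : Polynomial k) (E : Type) [Field E] [Algebra k E] : Finset E :=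
  letI := Classical.decEq E
  (f.map (algebraMap k E)).roots.toFinset

theorem Hyp.mem_rts (H : Hyp E x f r) {β : E} : β ∈ rts f E ↔ Polynomial.aeval β f = 0 := by
  have h0 : f.map (algebraMap k E) ≠ 0 :=
    (Polynomial.map_ne_zero_iff (algebraMap k E).injective).2 H.irr.ne_zero
  simp [rts, Polynomial.mem_roots h0, Polynomial.IsRoot, Polynomial.eval_map_algebraMap]

theorem Hyp.card_rts (H : Hyp E x f r) : (rts f E).card = f.natDegree := by
  classical
  have hcl := H.geo.clE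
  have h1 : f.Separable := H.irr.separable
  have h2 := Polynomial.card_rootSet_eq_natDegree (K := E) h1 (IsAlgClosed.splits _)
  rw [← h2]
  rw [Fintype.card_eq_nat_card, Nat.card_eq_card_toFinset]
  congr 1
  ext β
  rw [H.mem_rts, Set.mem_toFinset, Polynomial.mem_rootSet]
  simp [H.irr.ne_zero]

/-- the Galois group is transitive on the roots -/
theorem Hyp.trans (H : Hyp E x f r) {β β' : E} (h : Polynomial.aeval β f = 0)
    (h' : Polynomial.aeval β' f = 0) : ∃ σ : E ≃ₐ[k] E, σ β = β' := by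
  have halg := H.geo.algE
  have hcl := H.geo.clE
  have h1 : minpoly k β = minpoly k β' := by
    rw [← minpoly.eq_of_irreducible H.irr h, ← minpoly.eq_of_irreducible H.irr h']
  have h2 : Normal k E := by
    have : IsAlgClosure k E := ⟨hcl, halg⟩
    exact IsAlgClosure.normal k E
  obtain ⟨σ, hσ⟩ := (isConjRoot_iff_exists_algEquiv (K := k)).1 (h1 : IsConjRoot k β β')
  exact ⟨σ.symm, by rw [← hσ]; simp⟩

theorem Hyp.root_map (H : Hyp E x f r) {β : E} (h : Polynomial.aeval β f = 0) (σ : E ≃ₐ[k] E) :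
    Polynomial.aeval (σ β) f = 0 := by
  have h1 := Polynomial.aeval_algHom_apply (σ : E →ₐ[k] E) β f
  simp only [AlgEquiv.coe_toAlgHom] at h1
  rw [h1, h, map_zero]

/-- a root of order `2 ^ (j + 1)` above a class of order two -/
theorem Hyp.exists_u (H : Hyp E x f r) (h1 : StmtKX1) {w : U} (hw : RX E K0 r 2 w) (j : ℕ) :
    ∃ u m : U, RX E K0 r (2 ^ (j + 1)) u ∧ m ∈ MM E K0 r ∧ m ≠ 0 ∧ u ^ 2 ^ j = w * m := by
  induction j with
  | zero => exact ⟨w, 1, by simpa using hw, one_mem _, one_ne_zero, by simp⟩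
  | succ j ih =>
    obtain ⟨u, m, hu, hm, hm0, hum⟩ := ih
    obtain ⟨u', m', hu', hm', hm0', hum'⟩ := h1 k K0 E U _ r H.geo (j + 1) u hu
    refine ⟨u', m * m' ^ 2 ^ j, hu', mul_mem hm (pow_mem hm' _), mul_ne_zero hm0 (pow_ne_zero _ hm0'), ?_⟩
    rw [pow_succ', pow_mul, hum', mul_pow, hum]
    ring

/-- automorphisms which are `± 1` on the level `n + 1` are trivial on the level `n` -/
theorem PM.low (H : Hyp E x f r) (h1 : StmtKX1) {n : ℕ} {a : U ≃+* U}
    (hP : PM E K0 r (2 ^ (n + 1)) a) {v : U} (hv : RX E K0 r (2 ^ n) v) : a v = v := by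
  obtain ⟨u, m, hu, hm, hm0, hum⟩ := h1 k K0 E U _ r H.geo n v hv
  have h2 : a (u ^ 2) = u ^ 2 := by
    rcases hP.pm u hu with h | h <;> rw [map_pow, h]
    ring
  rw [hum, map_mul, hP.au.mm hP.fr _ hm] at h2
  exact mul_right_cancel₀ hm0 h2

/-- square roots of `x - β`, and their roots -/
theorem Hyp.exists_uu (H : Hyp E x f r) (h1 : StmtKX1) (h2 : StmtKX2) (j : ℕ) :
    ∃ ww uu mm : E → U, ∀ β : E, Polynomial.aeval β f = 0 →
      ww β ^ 2 = algebraMap K0 U x - algebraMap E U β ∧ RX E K0 r (2 ^ (j + 1)) (uu β) ∧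
      mm β ∈ MM E K0 r ∧ mm β ≠ 0 ∧ uu β ^ 2 ^ j = ww β * mm β := by
  have key : ∀ β : E, ∃ w u m : U, Polynomial.aeval β f = 0 →
      w ^ 2 = algebraMap K0 U x - algebraMap E U β ∧ RX E K0 r (2 ^ (j + 1)) u ∧
      m ∈ MM E K0 r ∧ m ≠ 0 ∧ u ^ 2 ^ j = w * m := by
    intro β
    by_cases hβ : Polynomial.aeval β f = 0
    · obtain ⟨w, hw⟩ := (h2 k K0 E U x f r H).1 β hβ
      have hw2 : RX E K0 r 2 w := by
        refine ⟨fun h0 => H.sub_ne β ?_, ?_⟩
        · rw [← hw, h0]; ring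
        · rw [hw]
          exact sub_mem (mm_K0 x) (mm_E β)
      obtain ⟨u, m, h3, h4, h5, h6⟩ := H.exists_u h1 hw2 j
      exact ⟨w, u, m, fun _ => ⟨hw, h3, h4, h5, h6⟩⟩
    · exact ⟨0, 0, 0, fun h => absurd h hβ⟩
  choose ww uu mm h using key
  exact ⟨ww, uu, mm, h⟩

/-- the decomposition of a class -/
theorem Hyp.decomp (H : Hyp E x f r) (h2 : StmtKX2) {j : ℕ} {ww uu mm : E → U}
    (hu : ∀ β : E, Polynomial.aeval β f = 0 →
      ww β ^ 2 = algebraMap K0 U x - algebraMap E U β ∧ RX E K0 r (2 ^ (j + 1)) (uu β) ∧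
      mm β ∈ MM E K0 r ∧ mm β ≠ 0 ∧ uu β ^ 2 ^ j = ww β * mm β) {w : U}
    (hw : RX E K0 r (2 ^ (j + 1)) w) :
    ∃ S : Finset E, (∀ β ∈ S, Polynomial.aeval β f = 0) ∧
      w ^ 2 ^ j * ∏ β ∈ S, ww β ∈ MM E K0 r ∧ RX E K0 r (2 ^ j) (w * ∏ β ∈ S, uu β) := by
  have hw2 : RX E K0 r 2 (w ^ 2 ^ j) :=
    ⟨pow_ne_zero _ hw.1, by rw [← pow_mul, ← pow_succ]; exact hw.2⟩
  obtain ⟨S, hS, hm⟩ := ((h2 k K0 E U x f r H).2.2 ww fun β hβ => (hu β hβ).1).1 _ hw2
  refine ⟨S, hS, hm, mul_ne_zero hw.1 (Finset.prod_ne_zero_iff.2 fun β hβ =>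
    (hu β (hS β hβ)).2.1.1), ?_⟩
  have h3 : (w * ∏ β ∈ S, uu β) ^ 2 ^ j = (w ^ 2 ^ j * ∏ β ∈ S, ww β) * ∏ β ∈ S, mm β := by
    rw [mul_pow, ← Finset.prod_pow, mul_assoc, ← Finset.prod_mul_distrib]
    congr 1
    exact Finset.prod_congr rfl fun β hβ => (hu β (hS β hβ)).2.2.2.2
  rw [h3]
  exact mul_mem hm (prod_mem fun β hβ => (hu β (hS β hβ)).2.2.1)

end gen

/-- **OB3** -/
theorem oB3 (h1 : StmtKX1) (h2 : StmtKX2) : StmtOB3 := by
  intro k K0 E U _ _ _ _ _ _ _ _ _ _ _ _ x f r H n hn a hP hs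
  obtain ⟨j, rfl⟩ : ∃ j, n = j + 1 := ⟨n - 1, by omega⟩
  have hcl := H.geo.clE
  have hch : CharZero U := charZero_of_injective_algebraMap (algebraMap k U).injective
  have hrsq : r ^ 2 = algebraMap K0 U (Polynomial.aeval x f) := H.geo.rsq
  obtain ⟨ww, uu, mm, hu⟩ := H.exists_uu h1 h2 j
  have hu0 : ∀ β : E, Polynomial.aeval β f = 0 → uu β ≠ 0 := fun β hβ => (hu β hβ).2.1.1
  -- the signs are constant
  have hsgn : ∀ β β' : E, Polynomial.aeval β f = 0 → Polynomial.aeval β' f = 0 →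
      a (uu β) = -uu β → a (uu β') = -uu β' := by
    intro β β' hβ hβ' hneg
    obtain ⟨σ, rfl⟩ := H.trans hβ hβ'
    obtain ⟨s, hs1, hs2, hs3⟩ := hs σ
    obtain ⟨hw, hru, hm, hm0, hum⟩ := hu β hβ
    obtain ⟨hw', hru', hm', hm0', hum'⟩ := hu (σ β) hβ'
    have h3 : s (ww β) ^ 2 = ww (σ β) ^ 2 := by
      rw [← map_pow, hw, map_sub, hs1.fixK, hs2, hw']
    have h4 : (s (uu β) * uu (σ β)) ^ 2 ^ j =
        (s (ww β) * ww (σ β)) * (s (mm β) * mm (σ β)) := by
      rw [mul_pow, ← map_pow, hum, hum', map_mul]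
      ring
    have h5 : s (ww β) * ww (σ β) ∈ MM E K0 r := by
      have h6 : ww (σ β) ^ 2 ∈ MM E K0 r := by
        rw [hw']
        exact sub_mem (mm_K0 x) (mm_E _)
      rcases sq_eq_sq_iff_eq_or_eq_neg.1 h3 with h7 | h7 <;> rw [h7]
      · rwa [← sq]
      · rw [neg_mul, ← sq]
        exact neg_mem h6
    have h6 : RX E K0 r (2 ^ j) (s (uu β) * uu (σ β)) := by
      refine ⟨mul_ne_zero (fun h => hru.1 (by simpa using h)) hru'.1, ?_⟩
      rw [h4]
      exact mul_mem h5 (mul_mem (hs1.mm hrsq _ hm) hm')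
    have h7 := hP.low H h1 h6
    rw [map_mul, hs3 _ (nx_rx hru), hneg, map_neg, neg_mul, ← mul_neg] at h7
    have h8 := mul_left_cancel₀ (fun h => hru.1 (by simpa using h) : s (uu β) ≠ 0) h7
    exact neg_eq_iff_eq_neg.1 h8
  -- they are `1`
  have hpos : ∀ β : E, Polynomial.aeval β f = 0 → a (uu β) = uu β := by
    intro β hβ
    by_contra hne
    have hneg : a (uu β) = -uu β := (hP.pm _ (hu β hβ).2.1).resolve_left hne
    have hall : ∀ β' ∈ rts f E, a (uu β') = -uu β' := fun β' hβ' =>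
      hsgn β β' hβ (H.mem_rts.1 hβ') hneg
    have h3 : ∏ β ∈ rts f E, ww β ∈ MM E K0 r :=
      (((h2 k K0 E U x f r H).2.2 ww fun β hβ => (hu β hβ).1).2 _ fun β hβ => H.mem_rts.1 hβ).2
        (Or.inr fun β hβ => H.mem_rts.2 hβ)
    have h4 : RX E K0 r (2 ^ j) (∏ β ∈ rts f E, uu β) := by
      refine ⟨Finset.prod_ne_zero_iff.2 fun β hβ => hu0 β (H.mem_rts.1 hβ), ?_⟩
      have h5 : (∏ β ∈ rts f E, uu β) ^ 2 ^ j = (∏ β ∈ rts f E, ww β) * ∏ β ∈ rts f E, mm β := by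
        rw [← Finset.prod_pow, ← Finset.prod_mul_distrib]
        exact Finset.prod_congr rfl fun β hβ => (hu β (H.mem_rts.1 hβ)).2.2.2.2
      rw [h5]
      exact mul_mem h3 (prod_mem fun β hβ => (hu β (H.mem_rts.1 hβ)).2.2.1)
    have h5 := hP.low H h1 h4
    rw [map_prod, Finset.prod_congr rfl hall, Finset.prod_neg, H.card_rts, H.odd.neg_one_pow,
      neg_one_mul] at h5
    have h6 : (∏ β ∈ rts f E, uu β) = 0 := by
      have h7 : (2 : U) * ∏ β ∈ rts f E, uu β = 0 := by linear_combination -h5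
      exact (mul_eq_zero.1 h7).resolve_left two_ne_zero
    exact h4.1 h6
  refine nx_agree (a : U →+* U) (RingHom.id U) (hP.au.mm hP.fr) ?_
  intro w hw
  change a w = w
  obtain ⟨S, hS, -, hS2⟩ := H.decomp h2 hu hw
  have h3 := hP.low H h1 hS2
  rw [map_mul, map_prod, Finset.prod_congr rfl fun β hβ => hpos β (hS β hβ)] at h3
  exact mul_right_cancel₀ (Finset.prod_ne_zero_iff.2 fun β hβ => hu0 β (hS β hβ)) h3

end Pool.Agent.TOW
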