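import Pool.Agent.Helper90.TW.OrbB2

/-!
# Project TW, ORBb: OB4
-/

set_option autoImplicit false
set_option linter.unusedSectionVars false
set_option linter.unusedVariables false

namespace Pool.Agent.TOW

open VC IntermediateField NumberField IsDedekindDomain Pool.Agent.SC Pool.Agent.L Pool.Agent.M

section gen

variable {k K0 E U : Type} [Field k] [NumberField k] [Field K0] [Field E] [Field U] [Algebra k K0]
    [Algebra k E] [Algebra E U] [Algebra K0 U] [Algebra k U] [IsScalarTower k E U]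
    [IsScalarTower k K0 U] {x : K0} {f : Polynomial k} {r : U}

/-- products of the square roots of `x - β` in `M`: the exponents have the same parity -/
theorem Hyp.parity (H : Hyp E x f r) (h2 : StmtKX2) {ww : E → U}
    (hw : ∀ β : E, Polynomial.aeval β f = 0 → ww β ^ 2 = algebraMap K0 U x - algebraMap E U β)
    (e : E → ℕ) (he : ∏ β ∈ rts f E, ww β ^ e β ∈ MM E K0 r) :
    (∀ β ∈ rts f E, Even (e β)) ∨ ∀ β ∈ rts f E, Odd (e β) := by
  classical
  have hw0 : ∀ β ∈ rts f E, ww β ≠ 0 := by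
    intro β hβ h0
    have h1 := hw β (H.mem_rts.1 hβ)
    rw [h0] at h1
    exact H.sub_ne β (by rw [← h1]; ring)
  have h3 : ∏ β ∈ rts f E, ww β ^ e β =
      (∏ β ∈ (rts f E).filter (fun β => Odd (e β)), ww β) * ∏ β ∈ rts f E, (ww β ^ 2) ^ (e β / 2) := by
    rw [Finset.prod_filter, ← Finset.prod_mul_distrib]
    refine Finset.prod_congr rfl fun β _ => ?_
    split_ifs with h
    · obtain ⟨t, ht⟩ := h
      have h4 : e β / 2 = t := by omega
      rw [h4, ht, pow_succ', pow_mul]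
    · obtain ⟨t, ht⟩ := Nat.not_odd_iff_even.1 h
      have h4 : e β / 2 = t := by omega
      rw [h4, ht, one_mul, ← pow_mul, two_mul]
  have h4 : ∏ β ∈ rts f E, (ww β ^ 2) ^ (e β / 2) ∈ MM E K0 r := by
    refine prod_mem fun β hβ => pow_mem ?_ _
    rw [hw β (H.mem_rts.1 hβ)]
    exact sub_mem (mm_K0 x) (mm_E β)
  have h5 : ∏ β ∈ rts f E, (ww β ^ 2) ^ (e β / 2) ≠ 0 :=
    Finset.prod_ne_zero_iff.2 fun β hβ => pow_ne_zero _ (pow_ne_zero _ (hw0 β hβ))
  have h6 : ∏ β ∈ (rts f E).filter (fun β => Odd (e β)), ww β ∈ MM E K0 r := by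
    have h7 := mul_mem he (inv_mem h4)
    rwa [h3, mul_assoc, mul_inv_cancel₀ h5, mul_one] at h7
  rcases (((h2 k K0 E U x f r H).2.2 ww hw).2 _ fun β hβ =>
    H.mem_rts.1 (Finset.mem_filter.1 hβ).1).1 h6 with h7 | h7
  · left
    intro β hβ
    rw [← Nat.not_odd_iff_even]
    intro h8
    have h9 : β ∈ (rts f E).filter (fun β => Odd (e β)) := Finset.mem_filter.2 ⟨hβ, h8⟩
    rw [h7] at h9
    exact absurd h9 (Finset.notMem_empty _)
  · right
    intro β hβ
    exact (Finset.mem_filter.1 (h7 β (H.mem_rts.1 hβ))).2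

/-- the sum of the exponents over a set with an even number of elements is even -/
theorem Hyp.even_sum (H : Hyp E x f r) (h2 : StmtKX2) {ww : E → U}
    (hw : ∀ β : E, Polynomial.aeval β f = 0 → ww β ^ 2 = algebraMap K0 U x - algebraMap E U β)
    (e : E → ℕ) (he : ∏ β ∈ rts f E, ww β ^ e β ∈ MM E K0 r) {S : Finset E} (hS : S ⊆ rts f E)
    (hSc : Even S.card) : Even (∑ β ∈ S, e β) := by
  rcases H.parity h2 hw e he with h | h
  · exact Finset.even_sum _ fun β hβ => h β (hS hβ)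
  · rw [Finset.even_sum_iff_even_card_odd]
    rwa [Finset.filter_true_of_mem fun β hβ => h β (hS hβ)]

/-- every even set of roots gives an automorphism -/
theorem Hyp.exists_A (H : Hyp E x f r) (h2 : StmtKX2) (hK : StmtKD) {j : ℕ} {ww uu mm : E → U}
    (hu : ∀ β : E, Polynomial.aeval β f = 0 →
      ww β ^ 2 = algebraMap K0 U x - algebraMap E U β ∧ RX E K0 r (2 ^ (j + 1)) (uu β) ∧
      mm β ∈ MM E K0 r ∧ mm β ≠ 0 ∧ uu β ^ 2 ^ j = ww β * mm β) {S : Finset E} (hS : S ⊆ rts f E)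
    (hSc : Even S.card) :
    ∃ T : U ≃+* U, PM E K0 r (2 ^ (j + 1)) T ∧ (∀ β ∈ S, T (uu β) = -uu β) ∧
      ∀ β ∈ rts f E, β ∉ S → T (uu β) = uu β := by
  classical
  have hww : ∀ β : E, Polynomial.aeval β f = 0 → ww β ^ 2 = algebraMap K0 U x - algebraMap E U β :=
    fun β hβ => (hu β hβ).1
  have key : ∀ w : U, ∃ e : E → ℕ, RX E K0 r (2 ^ (j + 1)) w →
      w ^ 2 ^ j * ∏ β ∈ rts f E, ww β ^ e β ∈ MM E K0 r := by
    intro w
    by_cases hw : RX E K0 r (2 ^ (j + 1)) w
    · obtain ⟨S', hS', hm, -⟩ := H.decomp h2 hu hw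
      refine ⟨fun β => if β ∈ S' then 1 else 0, fun _ => ?_⟩
      have h3 : ∏ β ∈ rts f E, ww β ^ (if β ∈ S' then 1 else 0) = ∏ β ∈ S', ww β := by
        have h4 : S' = (rts f E).filter (fun β => β ∈ S') := by
          ext β
          rw [Finset.mem_filter]
          exact ⟨fun h => ⟨H.mem_rts.2 (hS' β h), h⟩, fun h => h.2⟩
        conv_rhs => rw [h4]
        rw [Finset.prod_filter]
        refine Finset.prod_congr rfl fun β _ => ?_
        split_ifs <;> simp
      rwa [h3]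
    · exact ⟨0, fun h => absurd h hw⟩
  choose ee hee using key
  have hev : ∀ w w' : U, RX E K0 r (2 ^ (j + 1)) w → RX E K0 r (2 ^ (j + 1)) w' →
      Even (∑ β ∈ S, (ee w β + ee w' β + ee (w * w') β)) := by
    intro w w' hw hw'
    refine H.even_sum h2 hww _ ?_ hS hSc
    have h3 := mul_mem (mul_mem (hee w hw) (hee w' hw')) (hee (w * w') (hw.mul90 hw'))
    have h4 : w ^ 2 ^ j * (∏ β ∈ rts f E, ww β ^ ee w β) * (w' ^ 2 ^ j *
        ∏ β ∈ rts f E, ww β ^ ee w' β) * ((w * w') ^ 2 ^ j * ∏ β ∈ rts f E, ww β ^ ee (w * w') β) =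
        (w * w') ^ 2 ^ (j + 1) * ∏ β ∈ rts f E, ww β ^ (ee w β + ee w' β + ee (w * w') β) := by
      simp only [pow_add, Finset.prod_mul_distrib, pow_succ, pow_mul]
      ring
    rw [h4] at h3
    have h5 := (hw.mul90 hw').2
    have h6 := mul_mem (inv_mem h5) h3
    rwa [← mul_assoc, inv_mul_cancel₀ (pow_ne_zero _ (hw.mul90 hw').1), one_mul] at h6
  have hev1 : ∀ (w : U) (e' : E → ℕ), RX E K0 r (2 ^ (j + 1)) w →
      w ^ 2 ^ j * ∏ β ∈ rts f E, ww β ^ e' β ∈ MM E K0 r →
      Even (∑ β ∈ S, (ee w β + e' β)) := by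
    intro w e' hw hw'
    refine H.even_sum h2 hww _ ?_ hS hSc
    have h3 := mul_mem (hee w hw) hw'
    have h4 : w ^ 2 ^ j * (∏ β ∈ rts f E, ww β ^ ee w β) * (w ^ 2 ^ j *
        ∏ β ∈ rts f E, ww β ^ e' β) = w ^ 2 ^ (j + 1) * ∏ β ∈ rts f E, ww β ^ (ee w β + e' β) := by
      simp only [pow_add, Finset.prod_mul_distrib, pow_succ, pow_mul]
      ring
    rw [h4] at h3
    have h6 := mul_mem (inv_mem hw.2) h3
    rwa [← mul_assoc, inv_mul_cancel₀ (pow_ne_zero _ hw.1), one_mul] at h6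
  obtain ⟨T, hT1, hT2, hT3⟩ := hK k K0 E U _ r H.geo (j + 1)
    (fun w => (-1 : E) ^ ∑ β ∈ S, ee w β) (by
      intro w w' hw hw'
      have h3 := hev w w' hw hw'
      rw [Finset.sum_add_distrib, Finset.sum_add_distrib] at h3
      change (-1 : E) ^ _ = (-1) ^ _ * (-1) ^ _
      rw [← pow_add]
      rw [Nat.even_add] at h3
      by_cases h4 : Even (∑ β ∈ S, ee (w * w') β)
      · rw [h4.neg_one_pow, (h3.2 h4).neg_one_pow]
      · rw [(Nat.not_even_iff_odd.1 h4).neg_one_pow,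
          (Nat.not_even_iff_odd.1 fun h => h4 (h3.1 h)).neg_one_pow]) (by
      intro w hw hw0
      have h3 := hev1 w 0 (rx_mm hw hw0) (by simpa using pow_mem hw (2 ^ j))
      have h4 : ∑ β ∈ S, (ee w β + (0 : E → ℕ) β) = ∑ β ∈ S, ee w β := by simp
      rw [h4] at h3
      exact h3.neg_one_pow) (by
      intro w hw
      rw [← pow_mul, pow_succ']
      exact (Even.mul_left (even_two_mul _) _).neg_one_pow)
  have hTs : ∀ w : U, RX E K0 r (2 ^ (j + 1)) w →
      T w = (-1) ^ (∑ β ∈ S, ee w β) * w := by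
    intro w hw
    rw [hT3 w hw]
    simp
  refine ⟨T, ⟨hT1, hT2, fun w hw => ?_⟩, fun β hβ => ?_, fun β hβ hβS => ?_⟩
  · rw [hTs w hw]
    rcases Nat.even_or_odd (∑ β ∈ S, ee w β) with h | h
    · left; rw [h.neg_one_pow, one_mul]
    · right; rw [h.neg_one_pow, neg_one_mul]
  · have hβ' := H.mem_rts.1 (hS hβ)
    have h3 := hev1 (uu β) (fun γ => if γ = β then 1 else 0) (hu β hβ').2.1 (by
      rw [(hu β hβ').2.2.2.2]
      have h4 : ∏ γ ∈ rts f E, ww γ ^ (if γ = β then 1 else 0) = ww β := by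
        rw [Finset.prod_eq_single β (fun γ _ h => by simp [h]) (fun h => absurd (hS hβ) h)]
        simp
      rw [h4]
      have h5 : ww β * mm β * ww β = ww β ^ 2 * mm β := by ring
      rw [h5, (hu β hβ').1]
      exact mul_mem (sub_mem (mm_K0 x) (mm_E β)) (hu β hβ').2.2.1)
    rw [Finset.sum_add_distrib, Finset.sum_ite_eq' S β, if_pos hβ] at h3
    have h4 : Odd (∑ γ ∈ S, ee (uu β) γ) := by
      rw [← Nat.not_even_iff_odd]
      intro h5
      rw [Nat.even_add_one] at h3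
      exact h3 h5
    rw [hTs _ (hu β hβ').2.1, h4.neg_one_pow, neg_one_mul]
  · have hβ' := H.mem_rts.1 hβ
    have h3 := hev1 (uu β) (fun γ => if γ = β then 1 else 0) (hu β hβ').2.1 (by
      rw [(hu β hβ').2.2.2.2]
      have h4 : ∏ γ ∈ rts f E, ww γ ^ (if γ = β then 1 else 0) = ww β := by
        rw [Finset.prod_eq_single β (fun γ _ h => by simp [h]) (fun h => absurd hβ h)]
        simp
      rw [h4]
      have h5 : ww β * mm β * ww β = ww β ^ 2 * mm β := by ring
      rw [h5, (hu β hβ').1]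
      exact mul_mem (sub_mem (mm_K0 x) (mm_E β)) (hu β hβ').2.2.1)
    rw [Finset.sum_add_distrib, Finset.sum_ite_eq' S β, if_neg hβS, add_zero] at h3
    rw [hTs _ (hu β hβ').2.1, h3.neg_one_pow, one_mul]

end gen

/-- **OB4** -/
theorem oB4 (h1 : StmtKX1) (h2 : StmtKX2) (hK : StmtKD) : StmtOB4 := by
  classical
  intro k K0 E U _ _ _ _ _ _ _ _ _ _ _ _ x f r H n hn
  obtain ⟨j, rfl⟩ : ∃ j, n = j + 1 := ⟨n - 1, by omega⟩
  have hch : CharZero U := charZero_of_injective_algebraMap (algebraMap k U).injective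
  obtain ⟨ww, uu, mm, hu⟩ := H.exists_uu h1 h2 j
  -- five roots
  have hcard : 5 ≤ (rts f E).card := by rw [H.card_rts]; exact H.deg
  obtain ⟨R, hR, hRc⟩ := Finset.exists_subset_card_eq hcard
  let b : Fin 5 ≃ R := (Finset.equivFinOfCardEq hRc).symm
  have hb : ∀ i, (b i : E) ∈ rts f E := fun i => hR (b i).2
  have hinj : ∀ i i', (b i : E) = b i' → i = i' := fun i i' h => b.injective (Subtype.ext h)
  let S : Fin 5 → Finset E := fun i => if i = 0 then ∅ else {(b 0 : E), (b i : E)}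
  have hS : ∀ i, S i ⊆ rts f E := by
    intro i β hβ
    by_cases hi : i = 0
    · simp [S, hi] at hβ
    · simp only [S, if_neg hi, Finset.mem_insert, Finset.mem_singleton] at hβ
      rcases hβ with rfl | rfl
      · exact hb 0
      · exact hb i
  have hSc : ∀ i, Even (S i).card := by
    intro i
    by_cases hi : i = 0
    · simp [S, hi]
    · simp only [S, if_neg hi]
      rw [Finset.card_pair fun h => hi (hinj _ _ h).symm]
      exact even_two
  have hmem : ∀ i, i ≠ 0 → ∀ i', (b i : E) ∈ S i' ↔ i = i' := by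
    intro i hi i'
    by_cases hi' : i' = 0
    · simp only [S, hi', if_true]
      exact ⟨fun h => absurd h (Finset.notMem_empty _), fun h => absurd h hi⟩
    · simp only [S, if_neg hi', Finset.mem_insert, Finset.mem_singleton]
      constructor
      · rintro (h | h)
        · exact absurd (hinj _ _ h) hi
        · exact hinj _ _ h
      · rintro rfl
        exact Or.inr rfl
  have hA := fun i => H.exists_A h2 hK hu (hS i) (hSc i)
  choose A hA1 hA2 hA3 using hA
  have hdiff : ∀ i i', i ≠ i' → i ≠ 0 → A i (uu (b i)) ≠ A i' (uu (b i)) := by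
    intro i i' hne hi
    rw [hA2 i _ ((hmem i hi i).2 rfl), hA3 i' _ (hb i) fun h => hne ((hmem i hi i').1 h)]
    intro h
    have h3 := (hu (b i) (H.mem_rts.1 (hb i))).2.1.1
    exact h3 (self_eq_neg.1 h.symm)
  refine ⟨A, hA1, fun i i' hne => ?_⟩
  by_cases hi : i = 0
  · have hi' : i' ≠ 0 := fun h => hne (hi.trans h.symm)
    exact ⟨uu (b i'), nx_rx (hu _ (H.mem_rts.1 (hb i'))).2.1, (hdiff i' i hne.symm hi').symm⟩
  · exact ⟨uu (b i), nx_rx (hu _ (H.mem_rts.1 (hb i))).2.1, hdiff i i' hne hi⟩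

end Pool.Agent.TOW
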