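import Pool.Agent.Helper90.TW.OrbF1
import Pool.Agent.Helper59.M.NR

/-!
# Project TW, block ORB: assembly
-/

set_option autoImplicit false
set_option linter.unusedSectionVars false
set_option linter.unusedVariables false

namespace Pool.Agent.TOW

open VC IntermediateField NumberField IsDedekindDomain Pool.Agent.SC Pool.Agent.L Pool.Agent.M

/-- The situation at the place `Q`: `L1 = L0 E (KQ Q)` is the fixed field of `ι`. -/
structure Sit {k K0 E U : Type} [Field k] [NumberField k] [Field K0] [Field E] [Field U]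
    [Algebra k K0] [Algebra k E] [Algebra E U] [Algebra K0 U] [Algebra k U] [IsScalarTower k E U]
    [IsScalarTower k K0 U] (h : K0) (r : U) (n : ℕ) (b₀ : Place E (L0 E K0 (U := U)))
    (Q : Place E (NX E K0 r (2 ^ n))) (i : U ≃+* U) (L1 : IntermediateField E U) : Prop where
  geo : Geo k K0 E U h r
  br : BPl h b₀
  ov : OverPl b₀ Q
  stab : ∀ T : U ≃+* U, Au E K0 T → ∀ z ∈ NX E K0 r (2 ^ n), T z ∈ NX E K0 r (2 ^ n)
  ffN : IsFunctionField E (NX E K0 r (2 ^ n))
  trans : ∀ Q Q' : Place E (NX E K0 r (2 ^ n)),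
      (∀ b : Place E (L0 E K0 (U := U)), OverPl b Q ↔ OverPl b Q') →
      ∃ T : U ≃+* U, AuE E K0 T ∧ Moves T _ Q Q'
  triv : ∀ (T : U ≃+* U) (Q : Place E (NX E K0 r (2 ^ n))), AuE E K0 T → T r = r →
      Moves T _ Q Q → ∀ z ∈ NX E K0 r (2 ^ n), T z = z
  inv : ∀ (b : Place E (L0 E K0 (U := U))) (Q : Place E (NX E K0 r (2 ^ n))), BPl h b →
      OverPl b Q → ∃ T : U ≃+* U, AuE E K0 T ∧ T r = -r ∧ Moves T _ Q Q
  ne : ∀ b : Place E (L0 E K0 (U := U)), {Q : Place E (NX E K0 r (2 ^ n)) | OverPl b Q}.Nonempty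
  iau : AuE E K0 i
  ir : i r = -r
  iQ : Moves i _ Q Q
  le : L1 ≤ NX E K0 r (2 ^ n)
  ffL : IsFunctionField E L1
  fix : ∀ z ∈ L1, i z = z
  mem : ∀ z ∈ NX E K0 r (2 ^ n), i z = z → z ∈ L1

section sit

variable {k K0 E U : Type} [Field k] [NumberField k] [Field K0] [Field E] [Field U]
    [Algebra k K0] [Algebra k E] [Algebra E U] [Algebra K0 U] [Algebra k U] [IsScalarTower k E U]
    [IsScalarTower k K0 U] {h : K0} {r : U} {n : ℕ} {b₀ : Place E (L0 E K0 (U := U))}
    {Q : Place E (NX E K0 r (2 ^ n))} {i : U ≃+* U} {L1 : IntermediateField E U}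

theorem Sit.r0 (S : Sit (k := k) h r n b₀ Q i L1) : r ≠ 0 := fun h => S.geo.rnot (by
  rw [h]; exact zero_mem _)

theorem Sit.rN : r ∈ NX E K0 r (2 ^ n) := nx_mm mm_r

theorem Sit.iN (S : Sit (k := k) h r n b₀ Q i L1) : ∀ z ∈ NX E K0 r (2 ^ n),
    i z ∈ NX E K0 r (2 ^ n) := S.stab i S.iau.toAu

theorem Sit.ii (S : Sit (k := k) h r n b₀ Q i L1) : ∀ z ∈ NX E K0 r (2 ^ n), i (i z) = z :=
  S.triv (i.trans i) Q (S.iau.trans S.iau) (by
    rw [RingEquiv.trans_apply, S.ir, map_neg, S.ir, neg_neg]) (mv_comp S.iN S.iQ S.iQ)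

/-- on the level `n` the automorphisms with `T r = - r` which fix `Q` are equal -/
theorem Sit.eq_i (S : Sit (k := k) h r n b₀ Q i L1) {T : U ≃+* U} (hT : AuE E K0 T)
    (hTr : T r = -r) (hTQ : Moves T _ Q Q) : ∀ z ∈ NX E K0 r (2 ^ n), T z = i z := by
  intro z hz
  have hir : i.symm r = -r := by rw [RingEquiv.symm_apply_eq, map_neg, S.ir, neg_neg]
  have h1 := S.triv (T.trans i.symm) Q (hT.trans S.iau.symm) (by
    rw [RingEquiv.trans_apply, hTr, map_neg, hir, neg_neg])
    (mv_comp (S.stab T hT.toAu) hTQ (mv_symm S.iQ)) z hz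
  rw [RingEquiv.trans_apply, RingEquiv.symm_apply_eq] at h1
  exact h1

/-- above a branch point of `L1` there is one place, and it is fixed by `ι` -/
theorem Sit.above (S : Sit (k := k) h r n b₀ Q i L1) (hG3 : StmtOG3) {b : Place E L1} {h' : L1}
    (hh : (h' : U) = algebraMap K0 U h) (hb : ¬ (2 : ℤ) ∣ ord b.ring h') :
    (∃ Q' : Place E (NX E K0 r (2 ^ n)), OverPl b Q') ∧
    ∀ Q' Q'' : Place E (NX E K0 r (2 ^ n)), OverPl b Q' → OverPl b Q'' →
      Q' = Q'' ∧ Moves i _ Q' Q' := by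
  have hcl := S.geo.clE
  have : CharZero E := charZero_of_injective_algebraMap (algebraMap k E).injective
  exact hG3 E U L1 _ S.le S.ffL S.ffN i S.fix S.iN S.ii S.mem r h' Sit.rN S.r0 S.ir
    (by rw [hh, S.geo.rsq]) b hb

/-- places below places fixed by `ι` are branch points -/
theorem Sit.below (S : Sit (k := k) h r n b₀ Q i L1) (hG2 : StmtOG2) {b : Place E L1} {h' : L1}
    (hh : (h' : U) = algebraMap K0 U h) {Q' : Place E (NX E K0 r (2 ^ n))} (ho : OverPl b Q')
    (hm : Moves i _ Q' Q') : ¬ (2 : ℤ) ∣ ord b.ring h' := by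
  have hcl := S.geo.clE
  have : CharZero E := charZero_of_injective_algebraMap (algebraMap k E).injective
  exact hG2 E U L1 _ S.le S.ffL S.ffN b Q' ho i S.fix hm r h' Sit.rN S.r0 S.ir
    (by rw [hh, S.geo.rsq])

/-- the same for the places of `L0` -/
theorem Sit.below0 (S : Sit (k := k) h r n b₀ Q i L1) (hG2 : StmtOG2)
    {b : Place E (L0 E K0 (U := U))} {Q' : Place E (NX E K0 r (2 ^ n))} (ho : OverPl b Q')
    (hm : Moves i _ Q' Q') : BPl h b := by
  have hcl := S.geo.clE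
  have : CharZero E := charZero_of_injective_algebraMap (algebraMap k E).injective
  exact hG2 E U _ _ l0_le_nx S.geo.ff S.ffN b Q' ho i S.iau.l0 hm r (inL0 h) Sit.rN S.r0 S.ir
    S.geo.rsq.symm

/-- The automorphism `a` with `a Q = Q'` commutes with every automorphism which fixes `Q` and
`Q'`. -/
theorem Sit.comm (S : Sit (k := k) h r n b₀ Q i L1) {a s : U ≃+* U} (ha : AuE E K0 a)
    (har : a r = r) (hs : Au E K0 s) (hs' : Au E K0 s.symm)
    {Q' : Place E (NX E K0 r (2 ^ n))} (h1 : Moves a _ Q Q') (h2 : Moves s _ Q Q)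
    (h3 : Moves s _ Q' Q') : ∀ z ∈ NX E K0 r (2 ^ n), a (s z) = s (a z) := by
  have hars : a.symm r = r := by rw [RingEquiv.symm_apply_eq, har]
  have hsr : s r = r ∨ s r = -r := by
    have h1 : (s r) ^ 2 = r ^ 2 := by rw [← map_pow, S.geo.rsq, hs.fixK]
    exact sq_eq_sq_iff_eq_or_eq_neg.1 h1
  have hsr' : s.symm r = r ∨ s.symm r = -r := by
    have h1 : (s.symm r) ^ 2 = r ^ 2 := by rw [← map_pow, S.geo.rsq, hs'.fixK]
    exact sq_eq_sq_iff_eq_or_eq_neg.1 h1
  let T : U ≃+* U := (s.symm.trans a).trans (s.trans a.symm)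
  have hT : ∀ z, T z = a.symm (s (a (s.symm z))) := fun z => rfl
  have hTA : AuE E K0 T := by
    refine ⟨fun x => ?_, fun e => ?_⟩
    · rw [hT, hs'.fixK, ha.fixK, hs.fixK, ha.symm.fixK]
    · obtain ⟨e', he'⟩ := hs'.presE e
      rw [hT, he', ha.fixE, ← he', RingEquiv.apply_symm_apply, ha.symm.fixE]
  have hTr : T r = r := by
    rw [hT]
    rcases hsr' with h4 | h4
    · have h5 : s r = r := by
        have := congrArg s h4
        rw [RingEquiv.apply_symm_apply] at this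
        exact this.symm
      rw [h4, har, h5, hars]
    · have h5 : s r = -r := by
        have := congrArg s h4
        rw [RingEquiv.apply_symm_apply, map_neg] at this
        linear_combination this
      rw [h4, map_neg, har, map_neg, h5, neg_neg, hars]
  have hTQ : Moves T _ Q Q :=
    mv_comp (fun z hz => S.stab a ha.toAu _ (S.stab _ hs' z hz))
      (mv_comp (S.stab _ hs') (mv_symm h2) h1) (mv_comp (S.stab _ hs) h3 (mv_symm h1))
  intro z hz
  have h4 := S.triv T Q hTA hTr hTQ (s z) (S.stab s hs z hz)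
  rw [hT, RingEquiv.symm_apply_apply, RingEquiv.symm_apply_eq] at h4
  exact h4.symm

end sit

end Pool.Agent.TOW
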