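import Pool.Agent.Helper90.TW.OrbF2

/-!
# Project TW, block ORB: assembly
-/

set_option autoImplicit false
set_option linter.unusedSectionVars false
set_option linter.unusedVariables false

namespace Pool.Agent.TOW

open VC IntermediateField NumberField IsDedekindDomain Pool.Agent.SC Pool.Agent.L Pool.Agent.M

section sit

variable {k K0 E U : Type} [Field k] [NumberField k] [Field K0] [Field E] [Field U]
    [Algebra k K0] [Algebra k E] [Algebra E U] [Algebra K0 U] [Algebra k U] [IsScalarTower k E U]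
    [IsScalarTower k K0 U] {h : K0} {r : U} {n : ℕ}

theorem exists_sit (hPX : StmtPX1) (hKG : StmtKG) (hgeo : Geo k K0 E U h r)
    {b₀ : Place E (L0 E K0 (U := U))} {Q : Place E (NX E K0 r (2 ^ n))} (hb : BPl h b₀)
    (ho : OverPl b₀ Q) {c₀ : k} {Φ₀ : (E ≃ₐ[k] E) →* (U ≃+* U)} (hc : c₀ ≠ 0)
    (hΦ : Act (K0 := K0) r c₀ Φ₀) (hfix : ∀ g : E ≃ₐ[k] E, Moves (Φ₀ g) _ Q Q) :
    ∃ i : U ≃+* U, Sit (k := k) h r n b₀ Q i (L0 E (KQ Q)) ∧
      Geo k (KQ Q) E U (algebraMap K0 (KQ Q) h) r := by
  obtain ⟨hstab, -, hff, htrans, htriv, hinv, hne, -⟩ := hPX k K0 E U h r hgeo n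
  obtain ⟨i, hi, hir, hiQ⟩ := hinv b₀ Q hb ho
  obtain ⟨hgeo', hle, hmem, hfx, -⟩ := hKG k K0 E U h r hgeo n b₀ Q hb ho c₀ Φ₀ hc hΦ hfix
  have hir' : i.symm r = -r := by rw [RingEquiv.symm_apply_eq, map_neg, hir, neg_neg]
  refine ⟨i, ⟨hgeo, hb, ho, hstab, hff, htrans, htriv, hinv, fun b => (hne b).2, hi, hir, hiQ, hle,
    hgeo'.ff, hfx i hi hiQ, fun z hz hiz => hmem z hz fun T hT hTr hTQ => ?_⟩, hgeo'⟩
  have h1 := htriv (T.trans i.symm) Q (hT.trans hi.symm) (by
    rw [RingEquiv.trans_apply, hTr, map_neg, hir', neg_neg])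
    (mv_comp (hstab T hT.toAu) hTQ (mv_symm hiQ)) z hz
  rw [RingEquiv.trans_apply, RingEquiv.symm_apply_eq, hiz] at h1
  exact h1

end sit

/-- constants do not lie in the maximal ideal -/
theorem const_unit {E F : Type} [Field E] [Field F] [Algebra E F] (P : Place E F) {e : E}
    (h : algebraMap E F e ∈ P.ring.nonunits) : e = 0 := by
  by_contra he
  rcases (ValuationSubring.mem_nonunits_iff_or _).1 h with h7 | h7
  · rw [map_eq_zero] at h7
    exact he h7
  · apply h7
    rw [← map_inv₀]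
    exact P.algebraMap_mem _

/-- **Block ORB** -/
theorem oRB_of (hPX : StmtPX1) (hKG : StmtKG) (hINF : StmtINF) (hOB1 : StmtOB1) (hOB3 : StmtOB3)
    (hOB4 : StmtOB4) (hI2 : StmtOI2) (hI3 : StmtOI3) : StmtORB := by
  intro k K0 E U _ _ _ _ _ _ _ _ _ _ _ _ x f r H n Q hQ c₀ Φ₀ hc₀ hΦ₀ hfix b₁ hb₁
  have hcl := H.geo.clE
  have hcE : CharZero E := charZero_of_injective_algebraMap (algebraMap k E).injective
  obtain ⟨b₀, hb₀, hinf, hb₀T⟩ := hINF k K0 E U x f r H
  have hov : OverPl b₀ Q := (hinf n Q).1 hQ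
  obtain ⟨i, S, hgeo⟩ := exists_sit hPX hKG H.geo hb₀ hov hc₀ hΦ₀ hfix
  have hh : ((inL0 (algebraMap K0 (KQ Q) (Polynomial.aeval x f)) : L0 E (KQ Q) (U := U)) : U) =
      algebraMap K0 U (Polynomial.aeval x f) := rfl
  have hau : ∀ g, Au E K0 (Φ₀ g) := act_au90 hΦ₀
  have hsy : ∀ g z, (Φ₀ g).symm z = Φ₀ g⁻¹ z := act_symm
  have hau' : ∀ g, Au E K0 (Φ₀ g).symm := by
    intro g
    have h1 : (Φ₀ g).symm = Φ₀ g⁻¹ := RingEquiv.ext (hsy g)
    rw [h1]
    exact hau _
  -- the level zero
  have hlev0 : n = 0 → ∀ T : U ≃+* U, AuE E K0 T → T r = -r →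
      ∀ z ∈ NX E K0 r (2 ^ n), T z = i z := by
    rintro rfl T hT hTr
    have hM : ∀ z ∈ MM E K0 r, T z = i z :=
      mm_agree (T : U →+* U) (i : U →+* U) (fun e => by
        change T _ = i _
        rw [hT.fixE, S.iau.fixE]) (fun y => by
        change T _ = i _
        rw [hT.fixK, S.iau.fixK]) (by
        change T _ = i _
        rw [hTr, S.ir])
    exact nx_agree (T : U →+* U) (i : U →+* U) hM fun w hw => hM w (by simpa using hw.2)
  refine ⟨fun c Φ hc hΦ => ?_, ?_⟩
  · -- the actions agree on `L1`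
    have hagree : ∀ g : E ≃ₐ[k] E, ∀ z ∈ L0 E (KQ Q) (U := U), Φ g z = Φ₀ g z :=
      act_agree hΦ hΦ₀.const fun g y => y.2.2 (Φ₀ g) (hau g) (hfix g)
    have hL1 : ∀ g : E ≃ₐ[k] E, ∀ z ∈ L0 E (KQ Q) (U := U), Φ₀ g z ∈ L0 E (KQ Q) (U := U) := by
      intro g z hz
      rw [← hagree g z hz]
      exact act_l0 hΦ g z hz
    refine ⟨fun σ => mv_congr (fun z hz => (hagree σ z hz).symm) (mv_below S.le hb₁ (hfix σ)), ?_⟩
    intro b hb hne
    by_contra hcon
    push Not at hcon
    have hcon' : ∀ σ, Moves (Φ₀ σ) _ b b := fun σ => mv_congr (hagree σ) (hcon σ)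
    obtain ⟨⟨Q', hQ'⟩, hun⟩ := S.above oG3 hh hb
    have hiQ' : Moves i _ Q' Q' := (hun Q' Q' hQ' hQ').2
    -- all `Φ₀ σ` fix `Q'`
    have hfix' : ∀ σ, Moves (Φ₀ σ) _ Q' Q' := by
      intro σ
      obtain ⟨Q'', hQ''⟩ := (oG4 E U _ _ S.le S.ffL S.ffN).2 Q' (Φ₀ σ) (hau σ).presE
        (S.stab _ (hau σ)) (S.stab _ (hau' σ))
      have h1 : OverPl b Q'' := mv_over S.le (fun z hz => by
        rw [hsy]
        exact hL1 _ z hz) hQ' (hcon' σ) hQ''
      rw [← (hun Q' Q'' hQ' h1).1] at hQ''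
      exact hQ''
    rcases Nat.eq_zero_or_pos n with hn | hn
    · -- level zero
      obtain ⟨b', hb'⟩ := (oG4 E U _ _ l0_le_nx S.geo.ff S.ffN).1 Q'
      have hbr := S.below0 oG2 hb' hiQ'
      by_cases hx : inL0 x ∈ b'.ring
      · obtain ⟨β, hβ, hv⟩ := (hI3 k K0 E U x f r H).1 b' hbr hx
        -- another root
        have hcard : 1 < (rts f E).card := by
          rw [H.card_rts]
          have := H.deg
          omega
        obtain ⟨β', hβ', hne'⟩ := Finset.exists_mem_ne hcard β
        obtain ⟨σ, hσ⟩ := H.trans hβ (H.mem_rts.1 hβ')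
        have h1 : Moves (Φ₀ σ) _ b' b' := mv_below l0_le_nx hb' (hfix' σ)
        have h2 : (inL0 x - algebraMap E _ β : L0 E K0 (U := U)) ∈ b'.ring.nonunits :=
          (ValuationSubring.mem_nonunits_iff _).2 hv
        have h3 : Φ₀ σ ((inL0 x - algebraMap E _ β : L0 E K0 (U := U)) : U) =
            ((inL0 x - algebraMap E _ β' : L0 E K0 (U := U)) : U) := by
          change Φ₀ σ (algebraMap K0 U x - algebraMap E U β) = algebraMap K0 U x - algebraMap E U β'
          rw [map_sub, hΦ₀.fixK, hΦ₀.const, hσ]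
        have h4 := (moves_nonunits34 h1 (inL0 x - algebraMap E _ β : L0 E K0 (U := U)).2 (by
          rw [h3]
          exact (inL0 x - algebraMap E _ β' : L0 E K0 (U := U)).2)).1 h2
        have h5 : (inL0 x - algebraMap E _ β' : L0 E K0 (U := U)) ∈ b'.ring.nonunits := by
          convert h4 using 1
          exact Subtype.ext h3.symm
        have h6 : algebraMap E (L0 E K0 (U := U)) (β' - β) ∈ b'.ring.nonunits := by
          have h7 : algebraMap E (L0 E K0 (U := U)) (β' - β) =
              (inL0 x - algebraMap E _ β) - (inL0 x - algebraMap E _ β') := by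
            rw [map_sub]; ring
          rw [h7, ValuationSubring.mem_nonunits_iff]
          exact Valuation.map_sub_lt _ ((ValuationSubring.mem_nonunits_iff _).1 h2)
            ((ValuationSubring.mem_nonunits_iff _).1 h5)
        exact hne' (sub_eq_zero.1 (const_unit b' h6))
      · -- infinity
        have h1 : Infp x Q' := by
          intro hx' hmem
          exact hx ((hb' _ (inL0 x : L0 E K0 (U := U)).2 hx').2 hmem)
        have h2 : OverPl b₀ Q' := (hinf n Q').1 h1
        obtain ⟨T, hT, hTQ⟩ := S.trans Q Q' fun b'' =>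
          ⟨fun h => by rw [over_unique90 l0_le_nx h hov]; exact h2,
            fun h => by rw [over_unique90 l0_le_nx h h2]; exact hov⟩
        have h3 : Q = Q' := by
          rcases hT.r_or S.geo.rsq with h4 | h4
          · have h5 : ∀ z ∈ NX E K0 r (2 ^ n), T z = z := by
              refine nx_agree (T : U →+* U) (RingHom.id U) (hT.mm h4) fun w hw => hT.mm h4 w ?_
              have := hw.2
              rw [hn] at this
              simpa using this
            exact mv_eq h5 hTQ
          · exact mv_unique (φ := T) (fun z hz => S.stab _ hT.symm.toAu z hz)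
              (mv_congr (fun z hz => (hlev0 hn T hT h4 z hz).symm) S.iQ) hTQ
        rw [← h3] at hQ'
        exact hne (over_unique90 S.le hQ' hb₁)
    · -- level `≥ 1`
      obtain ⟨a, ha, har, haQ, hcomm⟩ := hI2 k K0 E U x f r H n hn Q hQ i S.iau S.ir S.iQ Q' hiQ'
      have hPM : PM E K0 r (2 ^ n) a :=
        (hOB1 k K0 E U x f r H n a i ha har S.iau S.ir).1 hcomm
      have h1 := hOB3 k K0 E U x f r H n hn a hPM fun σ =>
        ⟨Φ₀ σ, hau σ, hΦ₀.const σ, S.comm ha har (hau σ) (hau' σ) haQ (hfix σ) (hfix' σ)⟩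
      have h2 : Q = Q' := mv_eq h1 haQ
      rw [← h2] at hQ'
      exact hne (over_unique90 S.le hQ' hb₁)
  · -- at least five branch points
    have hst : IsScalarTower k (KQ Q) U := by
      refine IsScalarTower.of_algebraMap_eq fun y => ?_
      rw [IsScalarTower.algebraMap_apply k K0 (KQ Q)]
      exact IsScalarTower.algebraMap_apply k K0 U y
    have hfin := (Pool.Agent.M.nR k (KQ Q) E U _ r hgeo).2.1
    have key : ∃ QQ : Fin 5 → Place E (NX E K0 r (2 ^ n)), (∀ j, Moves i _ (QQ j) (QQ j)) ∧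
        Function.Injective QQ := by
      rcases Nat.eq_zero_or_pos n with hn | hn
      · have hcard : 5 ≤ (rts f E).card := by rw [H.card_rts]; exact H.deg
        obtain ⟨R, hR, hRc⟩ := Finset.exists_subset_card_eq hcard
        let b : Fin 5 ≃ R := (Finset.equivFinOfCardEq hRc).symm
        have hbr : ∀ j, Polynomial.aeval (b j : E) f = 0 := fun j => H.mem_rts.1 (hR (b j).2)
        choose bb hbb1 hbb2 using fun j => (hI3 k K0 E U x f r H).2 (b j : E) (hbr j)
        choose QQ hQQ using fun j => S.ne (bb j)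
        refine ⟨QQ, fun j => ?_, fun j j' hjj => ?_⟩
        · obtain ⟨T, hT, hTr, hTQ⟩ := S.inv (bb j) (QQ j) (hbb1 j) (hQQ j)
          exact mv_congr (hlev0 hn T hT hTr) hTQ
        · have h1 : OverPl (bb j') (QQ j) := by rw [hjj]; exact hQQ j'
          have h2 : bb j = bb j' := over_unique90 l0_le_nx (hQQ j) h1
          have h3 := hbb2 j
          rw [h2] at h3
          have h4 := hbb2 j'
          have h6 : algebraMap E (L0 E K0 (U := U)) ((b j' : E) - (b j : E)) ∈
              (bb j').ring.nonunits := by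
            have h7 : algebraMap E (L0 E K0 (U := U)) ((b j' : E) - (b j : E)) =
                (inL0 x - algebraMap E _ (b j : E)) - (inL0 x - algebraMap E _ (b j' : E)) := by
              rw [map_sub]; ring
            rw [h7, ValuationSubring.mem_nonunits_iff]
            exact Valuation.map_sub_lt _ h3 h4
          exact b.injective (Subtype.ext (sub_eq_zero.1 (const_unit _ h6)).symm)
      · obtain ⟨A, hA1, hA2⟩ := hOB4 k K0 E U x f r H n hn
        choose QQ hQQ using fun j => (oG4 E U _ _ S.le S.ffL S.ffN).2 Q (A j) (hA1 j).au.toAu.presE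
          (S.stab _ (hA1 j).au.toAu) (S.stab _ (hA1 j).au.symm.toAu)
        refine ⟨QQ, fun j => ?_, fun j j' hjj => ?_⟩
        · exact mv_conj (S.stab _ (hA1 j).au.toAu) (S.stab _ (hA1 j).au.symm.toAu) S.iN
            ((hOB1 k K0 E U x f r H n (A j) i (hA1 j).au (hA1 j).fr S.iau S.ir).2 (hA1 j))
            (hQQ j) S.iQ
        · by_contra hne
          obtain ⟨z, hz, hzne⟩ := hA2 j j' hne
          apply hzne
          have h1 := hQQ j'
          rw [← hjj] at h1
          have h2 : (A j').symm r = r := by rw [RingEquiv.symm_apply_eq, (hA1 j').fr]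
          have h3 := S.triv ((A j).trans (A j').symm) Q ((hA1 j).au.trans (hA1 j').au.symm) (by
            rw [RingEquiv.trans_apply, (hA1 j).fr, h2])
            (mv_comp (S.stab _ (hA1 j).au.toAu) (hQQ j) (mv_symm h1)) z hz
          rw [RingEquiv.trans_apply, RingEquiv.symm_apply_eq] at h3
          exact h3
    obtain ⟨QQ, hQQ1, hQQ2⟩ := key
    choose B hB using fun j => (oG4 E U _ _ S.le S.ffL S.ffN).1 (QQ j)
    have hBbr : ∀ j, BPl (algebraMap K0 (KQ Q) (Polynomial.aeval x f)) (B j) := fun j =>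
      S.below oG2 hh (hB j) (hQQ1 j)
    have hBinj : Function.Injective B := by
      intro j j' hjj
      apply hQQ2
      have h1 := hB j'
      rw [← hjj] at h1
      exact ((S.above oG3 hh (hBbr j)).2 (QQ j) (QQ j') (hB j) h1).1
    have h5 : Set.range B ⊆ {b | BPl (algebraMap K0 (KQ Q) (Polynomial.aeval x f)) b} := by
      rintro _ ⟨j, rfl⟩
      exact hBbr j
    calc 5 = Set.ncard (Set.range B) := by
          rw [← Set.image_univ, Set.ncard_image_of_injective _ hBinj, Set.ncard_univ]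
          simp
      _ ≤ _ := Set.ncard_le_ncard h5 hfin

end Pool.Agent.TOW
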